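import Pool.Agent.Helper17.AL.Fam

set_option autoImplicit false

/-! # Families: points over all number fields -/

namespace Pool.Agent.Helper17.AL

open Finset Pool.Agent.Helper259.AbsHt Module Pool.Agent.R870.RC MvPolynomial

variable {n N q : ℕ}

/-- Let `X_b`, `b ∈ ℚ ^ N`, be the closed subset of projective `n`-space over `ℚ` defined by the
specialisations at `b` of the forms `G_1, …, G_q` with coefficients in `ℚ[t_1, …, t_N]`. This is the
set of all parameters `b` such that for some number field `K`, of any degree, `X_b` has a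
`K`-rational point of absolute multiplicative height at most `B` which does not lie on `X_{b'}` for
all `b'` (Mathlib's `Height.mulHeight` is the height relative to `K`, its `[K : ℚ]`-th power) -/
def SmallPointParams (G : Fin q → MvPolynomial (Fin (n + 1)) (MvPolynomial (Fin N) ℚ)) (B : ℝ) :
    Set (Fin N → ℚ) :=
  {b | ∃ (K : Type) (_ : Field K) (_ : NumberField K) (x : Fin (n + 1) → K),
    x ≠ 0 ∧ Height.mulHeight x ≤ B ^ finrank ℚ K ∧
    (∀ i, aeval x (map (eval b) (G i)) = 0) ∧
    ∃ (b' : Fin N → ℚ) (i : Fin q), aeval x (map (eval b') (G i)) ≠ 0}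

open Classical in
/-- **families** -/
theorem fam_all (d : Fin q → ℕ) (G : Fin q → MvPolynomial (Fin (n + 1)) (MvPolynomial (Fin N) ℚ))
    (hG : ∀ i, (G i).IsHomogeneous (d i)) : ∃ C : ℝ, 0 < C ∧
    ∀ (B : ℝ) (M : ℕ) (A : Fin N → Finset ℚ), 1 ≤ B → 1 ≤ M → (∀ i, M ≤ (A i).card) →
    ((SmallPointParams G B ∩ {b | ∀ i, b i ∈ A i}).ncard : ℝ) ≤
      C * B ^ (∑ i, d i * (n + d i).choose (d i) ^ 2) / M * ∏ i, ((A i).card : ℝ) := by
  choose K hK0 hK using fun i => fam_one (d i) (G i) (hG i)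
  refine ⟨∑ i, K i + 1, ?_, fun B M A hB hM hA => ?_⟩
  · have := Finset.sum_nonneg fun i (_ : i ∈ (Finset.univ : Finset (Fin q))) => (hK0 i).le
    linarith
  have hB0 : 0 < B := by linarith
  have hM0 : (0 : ℝ) < M := by exact_mod_cast hM
  set T : Fin q → Finset (Fin N → ℚ) := fun i =>
    (Fintype.piFinset A).filter (fun b => ∃ x : Fin (n + 1) → Qbar,
      absLogHeight x ≤ Real.log B ∧ aeval x (spec (G i) b) = 0 ∧
        ∃ b', aeval x (spec (G i) b') ≠ 0) with hT
  have hsub : SmallPointParams G B ∩ {b | ∀ i, b i ∈ A i} ⊆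
      ((Finset.univ.biUnion T : Finset (Fin N → ℚ)) : Set (Fin N → ℚ)) := by
    rintro b ⟨⟨F, _, _, x, hx0, hht, hx1, b', i, hx2⟩, hbA⟩
    have halg : Algebra.IsAlgebraic ℚ F := inferInstance
    let φ : F →ₐ[ℚ] Qbar := IsAlgClosed.lift
    have hφ : ∀ P : MvPolynomial (Fin (n + 1)) ℚ, aeval (fun j => φ (x j)) P = φ (aeval x P) := by
      intro P
      have h4 : φ.comp (aeval x : MvPolynomial (Fin (n + 1)) ℚ →ₐ[ℚ] F) =
          aeval (fun j => φ (x j)) := by
        apply MvPolynomial.algHom_ext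
        intro k
        simp
      exact (DFunLike.congr_fun h4 P).symm
    rw [Finset.mem_coe, Finset.mem_biUnion]
    refine ⟨i, Finset.mem_univ i, ?_⟩
    refine Finset.mem_filter.2 ⟨Fintype.mem_piFinset.2 hbA, fun j => φ (x j), ?_, ?_, b', ?_⟩
    · have h1 := absLogHeight_eq F (φ : F →+* Qbar) x
      have h2 : (fun i => (φ : F →+* Qbar) (x i)) = fun j => φ (x j) := rfl
      rw [h2] at h1
      have hKpos : (0 : ℝ) < finrank ℚ F := by
        have := Module.finrank_pos (R := ℚ) (M := F)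
        exact_mod_cast this
      rw [h1, div_le_iff₀ hKpos, Height.logHeight_eq_log_mulHeight]
      refine (Real.log_le_log (Height.mulHeight_pos x) hht).trans (le_of_eq ?_)
      rw [Real.log_pow, mul_comm]
    · unfold spec
      rw [hφ, hx1 i, map_zero]
    · unfold spec
      rw [hφ]
      exact fun h => hx2 ((map_eq_zero φ).1 h)
  have hP : (0 : ℝ) ≤ ∏ i, ((A i).card : ℝ) := Finset.prod_nonneg fun i _ => Nat.cast_nonneg _
  have hcardA : ((Fintype.piFinset A).card : ℝ) = ∏ i, ((A i).card : ℝ) := by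
    rw [Fintype.card_piFinset, Nat.cast_prod]
  have h1 : (SmallPointParams G B ∩ {b | ∀ i, b i ∈ A i}).ncard ≤
      (Finset.univ.biUnion T).card := by
    have h2 := Set.ncard_le_ncard hsub (Finset.finite_toSet _)
    rwa [Set.ncard_coe_finset] at h2
  have h2 : ((SmallPointParams G B ∩ {b | ∀ i, b i ∈ A i}).ncard : ℝ) ≤
      ∑ i, ((T i).card : ℝ) := by
    refine (Nat.cast_le.2 (h1.trans Finset.card_biUnion_le)).trans (le_of_eq ?_)
    rw [Nat.cast_sum]
  refine h2.trans ?_
  set κ := ∑ i, d i * (n + d i).choose (d i) ^ 2 with hκ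
  have h3 : ∀ i ∈ (Finset.univ : Finset (Fin q)), ((T i).card : ℝ) ≤
      K i * (B ^ κ / M * ∏ i, ((A i).card : ℝ)) := by
    intro i _
    refine (hK i B M A hB hM hA).trans ?_
    rw [hcardA]
    have h4 : B ^ (d i * (n + d i).choose (d i) ^ 2) ≤ B ^ κ := by
      refine pow_le_pow_right₀ hB ?_
      exact Finset.single_le_sum (f := fun i => d i * (n + d i).choose (d i) ^ 2)
        (fun _ _ => Nat.zero_le _) (Finset.mem_univ i)
    have h5 : K i * B ^ (d i * (n + d i).choose (d i) ^ 2) / M ≤ K i * B ^ κ / M :=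
      div_le_div_of_nonneg_right (mul_le_mul_of_nonneg_left h4 (hK0 i).le) hM0.le
    refine (mul_le_mul_of_nonneg_right h5 hP).trans (le_of_eq ?_)
    ring
  refine (Finset.sum_le_sum h3).trans ?_
  rw [← Finset.sum_mul]
  have h6 : (0 : ℝ) ≤ B ^ κ / M * ∏ i, ((A i).card : ℝ) :=
    mul_nonneg (div_nonneg (pow_nonneg hB0.le _) hM0.le) hP
  refine (mul_le_mul_of_nonneg_right (by linarith : ∑ i, K i ≤ ∑ i, K i + 1) h6).trans
    (le_of_eq ?_)
  ring

end Pool.Agent.Helper17.AL
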