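import Pool.Agent.Helper17.AL.Func

set_option autoImplicit false

/-! # Counting the integral relations of vectors of small height -/

namespace Pool.Agent.Helper17.AL

open Finset Pool.Agent.Helper259.AbsHt Module

/-- the box -/
noncomputable def Bx (κ : Type) [Fintype κ] (H : ℕ) : Finset (κ → ℤ) := by
  classical
  exact Fintype.piFinset fun _ : κ => Finset.Icc (-(H : ℤ)) H

theorem mem_Bx {κ : Type} [Fintype κ] {H : ℕ} {w : κ → ℤ} : w ∈ Bx κ H ↔ ∀ k, |w k| ≤ H := by
  classical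
  unfold Bx
  rw [Fintype.mem_piFinset]
  refine forall_congr' fun k => ?_
  rw [Finset.mem_Icc, abs_le]

theorem card_Icc' (H : ℕ) : (Finset.Icc (-(H : ℤ)) H).card = 2 * H + 1 := by
  rw [Int.card_Icc]
  omega

theorem card_Bx (κ : Type) [Fintype κ] (H : ℕ) : (Bx κ H).card = (2 * H + 1) ^ Fintype.card κ := by
  classical
  unfold Bx
  rw [Fintype.card_piFinset, Finset.prod_const, card_Icc', Finset.card_univ]

open Classical in
/-- the solutions of an echelon system -/
theorem count_one {κ : Type} [Fintype κ] {e : ℕ} (f : Fin e → κ) (z : Fin e → κ → ℤ)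
    (hf : Function.Injective f) (h1 : ∀ i, z i (f i) ≠ 0) (h2 : ∀ i j, i ≠ j → z i (f j) = 0)
    (H : ℕ) : ((Bx κ H).filter (fun w => ∀ i, ∑ k, z i k * w k = 0)).card * (2 * H + 1) ^ e ≤
      (2 * H + 1) ^ Fintype.card κ := by
  have hcard : Fintype.card {k : κ // k ∉ Set.range f} + e = Fintype.card κ := by
    have h3 := Fintype.card_subtype_compl (fun k => k ∈ Set.range f)
    have h4 : Fintype.card {k : κ // k ∈ Set.range f} = e := by
      have h5 := Set.card_range_of_injective hf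
      rw [Fintype.card_fin] at h5
      convert h5
    have h6 : e ≤ Fintype.card κ := by
      have := Fintype.card_le_of_injective f hf
      rwa [Fintype.card_fin] at this
    rw [h4] at h3
    have h7 : Fintype.card {k : κ // k ∉ Set.range f} = Fintype.card κ - e := by
      rw [← h3]
    omega
  have hle : ((Bx κ H).filter (fun w => ∀ i, ∑ k, z i k * w k = 0)).card ≤
      (Bx {k : κ // k ∉ Set.range f} H).card := by
    refine Finset.card_le_card_of_injOn (fun w k => w k.1) ?_ ?_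
    · intro w hw
      rw [Finset.mem_coe, Finset.mem_filter] at hw
      rw [Finset.mem_coe, mem_Bx]
      exact fun k => mem_Bx.1 hw.1 k.1
    · intro w hw w' hw' hww
      rw [Finset.mem_coe, Finset.mem_filter] at hw hw'
      have h3 : ∀ k, k ∉ Set.range f → w k = w' k := fun k hk => congrFun hww ⟨k, hk⟩
      funext k
      by_cases hk : k ∈ Set.range f
      · obtain ⟨i, rfl⟩ := hk
        have h4 : ∑ k, z i k * (w k - w' k) = 0 := by
          simp_rw [mul_sub]
          rw [Finset.sum_sub_distrib, hw.2 i, hw'.2 i, sub_zero]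
        rw [Finset.sum_eq_single (f i)] at h4
        · exact sub_eq_zero.1 ((mul_eq_zero.1 h4).resolve_left (h1 i))
        · intro k _ hki
          by_cases hk : k ∈ Set.range f
          · obtain ⟨j, rfl⟩ := hk
            rw [h2 i j (fun h => hki (by rw [h])), zero_mul]
          · rw [h3 k hk, sub_self, mul_zero]
        · intro h
          exact absurd (Finset.mem_univ _) h
      · exact h3 k hk
  calc _ ≤ (Bx {k : κ // k ∉ Set.range f} H).card * (2 * H + 1) ^ e := Nat.mul_le_mul_right _ hle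
    _ = _ := by rw [card_Bx, ← pow_add, hcard]

open Classical in
/-- **the integral relations of the vectors of small height** -/
theorem small_count (κ : Type) [Fintype κ] (e : ℕ) : ∃ K : ℝ, 0 < K ∧ ∀ (H : ℕ) (B : ℝ), 1 ≤ B →
    (((Bx κ H).filter (fun w => ∃ v : κ → Qbar, absLogHeight v ≤ Real.log B ∧
      e ≤ finrank ℚ (Submodule.span ℚ (Set.range v)) ∧
      ∑ k, (w k : Qbar) * v k = 0)).card : ℝ) * (2 * (H : ℝ) + 1) ^ e ≤
      K * B ^ (e * Fintype.card κ ^ 2) * (2 * (H : ℝ) + 1) ^ Fintype.card κ := by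
  obtain ⟨C, hC0, hC⟩ := small_functionals κ
  set N := Fintype.card κ with hN
  refine ⟨((N : ℝ) + 1) ^ e * (3 * Real.exp C) ^ (e * N), by positivity, fun H B hB => ?_⟩
  have hB0 : 0 < B := by linarith
  set Y : ℝ := Real.exp C * B ^ N with hY
  have hY1 : 1 ≤ Y := one_le_mul_of_one_le_of_one_le (Real.one_le_exp hC0) (one_le_pow₀ hB)
  set X : ℕ := ⌊Y⌋₊ with hX
  -- the data
  let D : Finset ((Fin e → κ) × (Fin e → κ → ℤ)) :=
    (Finset.univ : Finset (Fin e → κ)) ×ˢ (Fintype.piFinset fun _ : Fin e => Bx κ X)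
  let D' := D.filter (fun p => Function.Injective p.1 ∧ (∀ i, p.2 i (p.1 i) ≠ 0) ∧
    ∀ i j, i ≠ j → p.2 i (p.1 j) = 0)
  have hsub : (Bx κ H).filter (fun w => ∃ v : κ → Qbar, absLogHeight v ≤ Real.log B ∧
      e ≤ finrank ℚ (Submodule.span ℚ (Set.range v)) ∧ ∑ k, (w k : Qbar) * v k = 0) ⊆
      D'.biUnion (fun p => (Bx κ H).filter (fun w => ∀ i, ∑ k, p.2 i k * w k = 0)) := by
    intro w hw
    rw [Finset.mem_filter] at hw
    obtain ⟨hwB, v, hv1, hv2, hv3⟩ := hw
    obtain ⟨f, z, hf, hz1, hz2, hz3, hz4⟩ := hC v e hv2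
    rw [Finset.mem_biUnion]
    refine ⟨(f, z), ?_, Finset.mem_filter.2 ⟨hwB, hz4 w hv3⟩⟩
    refine Finset.mem_filter.2 ⟨Finset.mem_product.2 ⟨Finset.mem_univ _, ?_⟩, hf, hz1, hz2⟩
    rw [Fintype.mem_piFinset]
    intro i
    rw [mem_Bx]
    intro k
    have h1 : |(z i k : ℝ)| ≤ Y := by
      refine (hz3 i k).trans ?_
      rw [hY, Real.exp_add]
      refine mul_le_mul_of_nonneg_left ?_ (Real.exp_pos _).le
      have h2 : (N : ℝ) * absLogHeight v ≤ N * Real.log B :=
        mul_le_mul_of_nonneg_left hv1 (Nat.cast_nonneg _)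
      refine (Real.exp_le_exp.2 h2).trans ?_
      rw [← Real.log_pow, Real.exp_log (pow_pos hB0 _)]
    have h2 : |z i k| = ((z i k).natAbs : ℤ) := (Int.natCast_natAbs _).symm
    rw [h2]
    have h3 : (z i k).natAbs ≤ X := by
      rw [hX]
      refine Nat.le_floor ?_
      rw [Nat.cast_natAbs, Int.cast_abs]
      exact h1
    exact Nat.cast_le.2 h3
  have hcardD : (D'.card : ℝ) ≤ ((N : ℝ) + 1) ^ e * ((3 * Real.exp C) ^ (e * N) *
      B ^ (e * N ^ 2)) := by
    have h1 : D'.card ≤ N ^ e * ((2 * X + 1) ^ N) ^ e := by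
      refine (Finset.card_filter_le _ _).trans (le_of_eq ?_)
      rw [Finset.card_product, Finset.card_univ, Fintype.card_fun, Fintype.card_fin,
        Fintype.card_piFinset, Finset.prod_const, card_Bx, Finset.card_univ, Fintype.card_fin]
    have h2 : (D'.card : ℝ) ≤ (N : ℝ) ^ e * ((2 * (X : ℝ) + 1) ^ N) ^ e := by
      have h3 : (D'.card : ℝ) ≤ ((N ^ e * ((2 * X + 1) ^ N) ^ e : ℕ) : ℝ) := Nat.cast_le.2 h1
      rw [Nat.cast_mul, Nat.cast_pow, Nat.cast_pow, Nat.cast_pow, Nat.cast_add, Nat.cast_mul,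
        Nat.cast_ofNat, Nat.cast_one] at h3
      exact h3
    refine h2.trans ?_
    refine mul_le_mul (pow_le_pow_left₀ (Nat.cast_nonneg _) (by linarith) _) ?_
      (by positivity) (by positivity)
    rw [← pow_mul]
    have h3 : 2 * (X : ℝ) + 1 ≤ 3 * Real.exp C * B ^ N := by
      have h4 : (X : ℝ) ≤ Y := Nat.floor_le (by linarith)
      rw [mul_assoc, ← hY]
      linarith
    refine (pow_le_pow_left₀ (by positivity) h3 _).trans (le_of_eq ?_)
    rw [mul_pow, ← pow_mul, mul_comm N e]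
    congr 2
    ring
  have hone : ∀ p ∈ D', (((Bx κ H).filter (fun w => ∀ i, ∑ k, p.2 i k * w k = 0)).card : ℝ) *
      (2 * (H : ℝ) + 1) ^ e ≤ (2 * (H : ℝ) + 1) ^ N := by
    intro p hp
    rw [Finset.mem_filter] at hp
    obtain ⟨_, hp1, hp2, hp3⟩ := hp
    have h1 := count_one p.1 p.2 hp1 hp2 hp3 H
    have h2 : ((((Bx κ H).filter (fun w => ∀ i, ∑ k, p.2 i k * w k = 0)).card *
      (2 * H + 1) ^ e : ℕ) : ℝ) ≤ (((2 * H + 1) ^ N : ℕ) : ℝ) := Nat.cast_le.2 h1
    rw [Nat.cast_mul, Nat.cast_pow, Nat.cast_pow, Nat.cast_add, Nat.cast_mul, Nat.cast_ofNat,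
      Nat.cast_one] at h2
    exact h2
  have hP : (0 : ℝ) < (2 * (H : ℝ) + 1) ^ N := by positivity
  have hQ : (0 : ℝ) < (2 * (H : ℝ) + 1) ^ e := by positivity
  calc _ ≤ (∑ p ∈ D', (((Bx κ H).filter (fun w => ∀ i, ∑ k, p.2 i k * w k = 0)).card : ℝ)) *
        (2 * (H : ℝ) + 1) ^ e := by
        refine mul_le_mul_of_nonneg_right ?_ hQ.le
        have h1 := (Finset.card_le_card hsub).trans Finset.card_biUnion_le
        have h2 : ((_ : ℕ) : ℝ) ≤ ((_ : ℕ) : ℝ) := Nat.cast_le.2 h1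
        rw [Nat.cast_sum] at h2
        exact h2
    _ ≤ ∑ p ∈ D', (2 * (H : ℝ) + 1) ^ N := by
        rw [Finset.sum_mul]
        exact Finset.sum_le_sum hone
    _ = (D'.card : ℝ) * (2 * (H : ℝ) + 1) ^ N := by rw [Finset.sum_const, nsmul_eq_mul]
    _ ≤ (((N : ℝ) + 1) ^ e * ((3 * Real.exp C) ^ (e * N) * B ^ (e * N ^ 2))) *
        (2 * (H : ℝ) + 1) ^ N := mul_le_mul_of_nonneg_right hcardD hP.le
    _ = _ := by ring

end Pool.Agent.Helper17.AL
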