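import Mathlib
import Pool.Graph.R_seed8.Helper259.AbsHt

set_option autoImplicit false

/-! # Conjugates of linearly independent algebraic numbers, heights of determinants -/

namespace Pool.Agent.Helper17.AL

open Finset Pool.Agent.Helper259.AbsHt Module Height

theorem gal : IsGalois ℚ Qbar := by
  have h : IsAlgClosure ℚ Qbar := ⟨inferInstance, AlgebraicClosure.isAlgebraic ℚ⟩
  exact IsAlgClosure.isGalois ℚ Qbar

open Classical in
/-- the conjugates of a linearly independent family: no nonzero linear relation -/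
theorem conj_rel {κ : Type*} [Fintype κ] (v : κ → Qbar)
    (hv : LinearIndependent ℚ v) (m : ℕ) : ∀ c : κ → Qbar,
      (univ.filter fun b => c b ≠ 0).card ≤ m →
      (∀ σ : Qbar ≃ₐ[ℚ] Qbar, ∑ b, c b * σ (v b) = 0) → c = 0 := by
  induction m with
  | zero =>
    intro c hc _
    funext b
    by_contra hb
    have : b ∈ univ.filter fun b => c b ≠ 0 := by simpa using hb
    have h1 : 0 < (univ.filter fun b => c b ≠ 0).card := Finset.card_pos.2 ⟨b, this⟩
    omega
  | succ m ih =>
    intro c hc hrel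
    by_contra hne
    obtain ⟨b0, hb0⟩ : ∃ b, c b ≠ 0 := by
      by_contra hcon
      push Not at hcon
      exact hne (funext hcon)
    obtain ⟨c', hc'⟩ : ∃ c' : κ → Qbar, ∀ b, c' b = (c b0)⁻¹ * c b := ⟨_, fun _ => rfl⟩
    have hc'0 : c' b0 = 1 := by rw [hc', inv_mul_cancel₀ hb0]
    have hrel' : ∀ σ : Qbar ≃ₐ[ℚ] Qbar, ∑ b, c' b * σ (v b) = 0 := by
      intro σ
      have : ∑ b, c' b * σ (v b) = (c b0)⁻¹ * ∑ b, c b * σ (v b) := by
        rw [Finset.mul_sum]
        refine Finset.sum_congr rfl fun b _ => ?_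
        rw [hc']
        ring
      rw [this, hrel σ, mul_zero]
    have hfix : ∀ (τ : Qbar ≃ₐ[ℚ] Qbar) (b : κ), τ (c' b) = c' b := by
      intro τ
      have h1 : (fun b => τ (c' b) - c' b) = 0 := by
        refine ih _ ?_ ?_
        · have hsub : (univ.filter fun b => τ (c' b) - c' b ≠ 0) ⊆
              (univ.filter fun b => c b ≠ 0).erase b0 := by
            intro b hb
            rw [Finset.mem_filter] at hb
            rw [Finset.mem_erase, Finset.mem_filter]
            refine ⟨?_, mem_univ _, ?_⟩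
            · rintro rfl
              apply hb.2
              rw [hc'0, map_one, sub_self]
            · intro h0
              apply hb.2
              rw [hc', h0, mul_zero, map_zero, sub_self]
          have h2 : b0 ∈ univ.filter fun b => c b ≠ 0 := by simpa using hb0
          have h3 := Finset.card_le_card hsub
          rw [Finset.card_erase_of_mem h2] at h3
          omega
        · intro σ
          have h2 : ∑ b, (τ (c' b) - c' b) * σ (v b) =
              ∑ b, τ (c' b) * σ (v b) - ∑ b, c' b * σ (v b) := by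
            rw [← Finset.sum_sub_distrib]
            refine Finset.sum_congr rfl fun b _ => by ring
          rw [h2, hrel' σ, sub_zero]
          have h3 := congrArg τ (hrel' (σ.trans τ.symm))
          rw [map_sum, map_zero] at h3
          rw [← h3]
          refine Finset.sum_congr rfl fun b _ => ?_
          rw [map_mul]
          simp
      intro b
      exact sub_eq_zero.1 (congrFun h1 b)
    have hrat : ∀ b, ∃ q : ℚ, (q : Qbar) = c' b := by
      intro b
      have := gal
      obtain ⟨q, hq⟩ := (InfiniteGalois.mem_range_algebraMap_iff_fixed (k := ℚ) (K := Qbar)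
        (c' b)).2 fun f => hfix f b
      refine ⟨q, ?_⟩
      rw [← hq]
      exact (eq_ratCast (algebraMap ℚ Qbar) q).symm
    choose q hq using hrat
    have h1 := hrel' AlgEquiv.refl
    have h2 : ∑ b, q b • v b = 0 := by
      rw [← h1]
      refine Finset.sum_congr rfl fun b _ => ?_
      rw [← hq b, Rat.smul_def]
      rfl
    have h3 := Fintype.linearIndependent_iff.1 hv q h2 b0
    have h4 := hq b0
    rw [h3, hc'0] at h4
    simp at h4

/-- the vectors of the conjugates span the whole space -/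
theorem span_conj {κ : Type*} [Fintype κ] [DecidableEq κ] (v : κ → Qbar)
    (hv : LinearIndependent ℚ v) :
    Submodule.span Qbar (Set.range fun (σ : Qbar ≃ₐ[ℚ] Qbar) (b : κ) => σ (v b)) = ⊤ := by
  by_contra hne
  obtain ⟨f, hf, hf0⟩ := Submodule.exists_le_ker_of_lt_top _ (lt_top_iff_ne_top.2 hne)
  apply hf
  obtain ⟨c, hc⟩ : ∃ c : κ → Qbar, ∀ b, c b = f (Pi.single b 1) := ⟨_, fun _ => rfl⟩
  have hfc : ∀ y : κ → Qbar, f y = ∑ b, c b * y b := by
    intro y
    conv_lhs => rw [pi_eq_sum_univ' y]
    rw [map_sum]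
    refine Finset.sum_congr rfl fun b _ => ?_
    rw [map_smul, hc, smul_eq_mul, mul_comm]
  have hc0 : c = 0 := by
    refine conj_rel v hv (Fintype.card κ) c (Finset.card_le_univ _) fun σ => ?_
    have : (fun b => σ (v b)) ∈ Submodule.span Qbar
        (Set.range fun (σ : Qbar ≃ₐ[ℚ] Qbar) (b : κ) => σ (v b)) :=
      Submodule.subset_span ⟨σ, rfl⟩
    have h2 := hf0 this
    rw [LinearMap.mem_ker, hfc] at h2
    exact h2
  refine LinearMap.ext fun y => ?_
  rw [hfc, hc0]
  simp

/-- conjugates with nonzero determinant -/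
theorem exists_conj {r : ℕ} (v : Fin r → Qbar) (hv : LinearIndependent ℚ v) :
    ∃ σ : Fin r → (Qbar ≃ₐ[ℚ] Qbar), (Matrix.of fun j k => σ j (v k)).det ≠ 0 := by
  classical
  obtain ⟨g, hg, hspan, hli⟩ := Submodule.exists_fun_fin_finrank_span_eq Qbar
    (Set.range fun (σ : Qbar ≃ₐ[ℚ] Qbar) (b : Fin r) => σ (v b))
  have hr : finrank Qbar (Submodule.span Qbar
      (Set.range fun (σ : Qbar ≃ₐ[ℚ] Qbar) (b : Fin r) => σ (v b))) = r := by
    rw [span_conj v hv, finrank_top]
    simp
  choose σ hσ using hg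
  refine ⟨fun j => σ (Fin.cast hr.symm j), ?_⟩
  have h1 : LinearIndependent Qbar (fun j : Fin r => g (Fin.cast hr.symm j)) :=
    hli.comp _ (Fin.cast_injective _)
  have h2 : (fun j : Fin r => g (Fin.cast hr.symm j)) =
      (Matrix.of fun j k => σ (Fin.cast hr.symm j) (v k)).row := by
    funext j k
    rw [← hσ]
    rfl
  rw [h2] at h1
  have h3 := Matrix.linearIndependent_rows_iff_isUnit.1 h1
  rw [Matrix.isUnit_iff_isUnit_det] at h3
  exact h3.ne_zero

/-- the height is invariant under automorphisms -/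
theorem absLogHeight_conj {ι : Type*} [Finite ι] (σ : Qbar ≃ₐ[ℚ] Qbar) (x : ι → Qbar) :
    absLogHeight (fun i => σ (x i)) = absLogHeight x := by
  obtain ⟨L, hL, hmem⟩ := exists_nf (Set.range x) (Set.finite_range x)
  obtain ⟨y, rfl⟩ := lift_vec L x fun i => hmem _ ⟨i, rfl⟩
  rw [val_eq]
  exact absLogHeight_eq L ((σ : Qbar →+* Qbar).comp (algebraMap L Qbar)) y

/-- the height of a tensor -/
theorem absLogHeight_tensor {ι : Type*} [Finite ι] {r : ℕ} (y : Fin r → ι → Qbar)
    (hy : ∀ j, y j ≠ 0) :
    absLogHeight (fun f : Fin r → ι => ∏ j, y j (f j)) = ∑ j, absLogHeight (y j) := by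
  obtain ⟨L, hL, hmem⟩ := exists_nf (Set.range fun p : Fin r × ι => y p.1 p.2)
    (Set.finite_range _)
  obtain ⟨z, hz⟩ : ∃ z : Fin r → ι → L, ∀ j i, y j i = (z j i : Qbar) :=
    ⟨fun j i => ⟨y j i, hmem _ ⟨(j, i), rfl⟩⟩, fun _ _ => rfl⟩
  have hz0 : ∀ j, z j ≠ 0 := by
    intro j h
    apply hy j
    funext i
    rw [hz, h]
    rfl
  have e1 : (fun f : Fin r → ι => ∏ j, y j (f j)) =
      fun f => (((fun f : Fin r → ι => ∏ j, z j (f j)) f : L) : Qbar) := by
    funext f
    push_cast
    refine Finset.prod_congr rfl fun j _ => hz j _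
  have e2 : ∀ j, absLogHeight (y j) = logHeight (z j) / finrank ℚ L := by
    intro j
    rw [← val_eq]
    congr 1
    funext i
    exact hz j i
  rw [e1, val_eq, logHeight_fun_prod_eq hz0, Finset.sum_div]
  exact Finset.sum_congr rfl fun j _ => (e2 j).symm

/-- the height of the minors of a matrix -/
theorem absLogHeight_det (ι : Type) [Finite ι] (r : ℕ) : ∃ C : ℝ, 0 ≤ C ∧
    ∀ y : Fin r → ι → Qbar, (∀ j, y j ≠ 0) →
      absLogHeight (fun f : Fin r → ι => (Matrix.of fun j k => y j (f k)).det) ≤
        C + ∑ j, absLogHeight (y j) := by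
  classical
  have : Fintype ι := Fintype.ofFinite ι
  obtain ⟨A, hA⟩ : ∃ A : (Fin r → ι) × (Fin r → ι) → Qbar, ∀ f g, A (f, g) =
      ∑ π : Equiv.Perm (Fin r), if (fun j => f (π.symm j)) = g then
        ((Equiv.Perm.sign π : ℤ) : Qbar) else 0 :=
    ⟨fun p => ∑ π : Equiv.Perm (Fin r), if (fun j => p.1 (π.symm j)) = p.2 then
        ((Equiv.Perm.sign π : ℤ) : Qbar) else 0, fun _ _ => rfl⟩
  refine ⟨|Real.log (Nat.card (Fin r → ι)) + absLogHeight A|, abs_nonneg _, fun y hy => ?_⟩
  have h1 := absLogHeight_linear A (fun f : Fin r → ι => ∏ j, y j (f j))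
  rw [absLogHeight_tensor y hy] at h1
  have e : (fun f : Fin r → ι => (Matrix.of fun j k => y j (f k)).det) =
      fun f => ∑ g : Fin r → ι, A (f, g) * ∏ j, y j (g j) := by
    funext f
    rw [Matrix.det_apply]
    have h2 : ∀ g : Fin r → ι, A (f, g) * ∏ j, y j (g j) =
        ∑ π : Equiv.Perm (Fin r), if (fun j => f (π.symm j)) = g then
          ((Equiv.Perm.sign π : ℤ) : Qbar) * ∏ j, y j (g j) else 0 := by
      intro g
      rw [hA, Finset.sum_mul]
      refine Finset.sum_congr rfl fun π _ => ?_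
      split_ifs <;> simp
    simp_rw [h2]
    rw [Finset.sum_comm]
    refine Finset.sum_congr rfl fun π _ => ?_
    rw [Finset.sum_ite_eq]
    simp only [mem_univ, if_true]
    have h3 : ∏ i, (Matrix.of fun j k => y j (f k)) (π i) i = ∏ j, y j (f (π.symm j)) := by
      rw [← Equiv.prod_comp π (fun j => y j (f (π.symm j)))]
      refine Finset.prod_congr rfl fun i _ => ?_
      simp
    rw [h3, Units.smul_def, zsmul_eq_mul]
  rw [e]
  refine h1.trans ?_
  have := le_abs_self (Real.log (Nat.card (Fin r → ι)) + absLogHeight A)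
  linarith

end Pool.Agent.Helper17.AL
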