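import Pool.Agent.Helper17.AL.Func

set_option autoImplicit false

/-! # Small rational functionals describing all the relations -/

namespace Pool.Agent.Helper17.AL

open Finset Pool.Agent.Helper259.AbsHt Module Height

/-- **Small functionals.** For a vector `v` of algebraic numbers there are integral vectors
of size at most `C H(v) ^ N`, such that the rational relations between the entries of `v` are
exactly the rational vectors orthogonal to all of them. -/
theorem small_dual (κ : Type) [Fintype κ] : ∃ C : ℝ, 0 ≤ C ∧
    ∀ (v : κ → Qbar), ∃ (r : ℕ) (z : Fin r → κ → ℤ),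
        (∀ i k, |(z i k : ℝ)| ≤ Real.exp (C + Fintype.card κ * absLogHeight v)) ∧
        ∀ w : κ → ℚ, ∑ k, (w k : Qbar) * v k = 0 ↔ ∀ i, ∑ k, (z i k : ℚ) * w k = 0 := by
  classical
  choose Cr hCr0 hCr using fun r : ℕ => absLogHeight_det κ r
  refine ⟨∑ r ∈ Finset.range (Fintype.card κ + 1), Cr r, Finset.sum_nonneg fun r _ => hCr0 r,
    fun v => ?_⟩
  obtain ⟨r, hr⟩ : ∃ r : ℕ, r = finrank ℚ (Submodule.span ℚ (Set.range v)) := ⟨_, rfl⟩
  have hfin : Module.Finite ℚ (Submodule.span ℚ (Set.range v)) :=
    Module.Finite.span_of_finite ℚ (Set.finite_range v)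
  obtain ⟨g, hg, hspan, hli⟩ := Submodule.exists_fun_fin_finrank_span_eq ℚ (Set.range v)
  have hrN : r ≤ Fintype.card κ := by
    rw [hr]
    exact finrank_range_le_card v
  -- a basis of the span among the entries
  obtain ⟨b, hb⟩ : ∃ b : Fin r → κ, ∀ i, v (b i) = g (Fin.cast hr i) := by
    choose b hb using fun i => hg (Fin.cast hr i)
    exact ⟨b, hb⟩
  have hvli : LinearIndependent ℚ (fun i => v (b i)) := by
    have : (fun i => v (b i)) = g ∘ Fin.cast hr := by
      funext i
      exact hb i
    rw [this]
    exact hli.comp _ (Fin.cast_injective _)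
  have hmem : ∀ k, v k ∈ Submodule.span ℚ (Set.range fun i => v (b i)) := by
    intro k
    have h1 : v k ∈ Submodule.span ℚ (Set.range g) := by
      rw [hspan]
      exact Submodule.subset_span ⟨k, rfl⟩
    refine Submodule.span_mono ?_ h1
    rintro _ ⟨i, rfl⟩
    refine ⟨Fin.cast hr.symm i, ?_⟩
    exact hb (Fin.cast hr.symm i)
  choose c hc using fun k => (Submodule.mem_span_range_iff_exists_fun ℚ).1 (hmem k)
  have hcb : ∀ i j, c (b i) j = if i = j then 1 else 0 := by
    intro i
    have h1 : ∑ j, (c (b i) j - if i = j then 1 else 0) • v (b j) = 0 := by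
      simp_rw [sub_smul]
      rw [Finset.sum_sub_distrib, hc]
      simp [ite_smul]
    intro j
    exact sub_eq_zero.1 (Fintype.linearIndependent_iff.1 hvli _ h1 j)
  -- conjugates
  obtain ⟨σ, hσ⟩ := exists_conj (fun i => v (b i)) hvli
  have hv0 : ∀ j, 0 < r → (fun k => σ j (v k)) ≠ 0 := by
    intro j hr0 h
    have h1 := hvli.ne_zero (⟨0, hr0⟩ : Fin r)
    apply h1
    have h2 := congrFun h (b ⟨0, hr0⟩)
    exact (map_eq_zero (σ j)).1 h2
  -- the coordinate functionals
  have hheight : ∀ i : Fin r, absLogHeight (fun k => (c k i : Qbar)) ≤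
      Cr r + r * absLogHeight v := by
    intro i
    have hr0 : 0 < r := i.pos
    have h1 := hCr r (fun j k => σ j (v k)) fun j => hv0 j hr0
    have h2 : ∑ j : Fin r, absLogHeight (fun k => σ j (v k)) = r * absLogHeight v := by
      rw [Finset.sum_congr rfl fun j _ => absLogHeight_conj (σ j) v]
      simp
    rw [h2] at h1
    refine le_trans ?_ h1
    have h3 := absLogHeight_comp_le (fun k : κ => (Function.update b i k : Fin r → κ))
      (fun f : Fin r → κ => (Matrix.of fun j k => σ j (v (f k))).det)
    refine le_trans (le_of_eq ?_) h3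
    rw [← absLogHeight_smul (fun k => (c k i : Qbar)) hσ]
    congr 1
    funext k
    simp only [Pi.smul_apply, smul_eq_mul, Function.comp_apply]
    have h4 : (Matrix.of fun j l => σ j (v (Function.update b i k l))) =
        (Matrix.of fun j l => σ j (v (b l))).updateCol i (fun j => ∑ l, (c k l : Qbar) •
          (Matrix.of fun j l => σ j (v (b l))) j l) := by
      ext j l
      rw [Matrix.updateCol_apply]
      simp only [Matrix.of_apply]
      split_ifs with hl
      · subst hl
        rw [Function.update_self, ← hc k, map_sum]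
        refine Finset.sum_congr rfl fun l _ => ?_
        rw [Rat.smul_def, map_mul, map_ratCast, smul_eq_mul]
      · rw [Function.update_of_ne hl]
    rw [h4, Matrix.det_updateCol_sum, smul_eq_mul, mul_comm]
  have hCle : Cr r ≤ ∑ r ∈ Finset.range (Fintype.card κ + 1), Cr r :=
    Finset.single_le_sum (fun r _ => hCr0 r) (Finset.mem_range.2 (by omega))
  choose z a ha hz hzle using fun i : Fin r => exists_int (fun k => c k i) (b i) (by
    have := hcb i i
    simpa using this)
  refine ⟨r, z, fun i k => ?_, fun w => ⟨fun hw i => ?_, fun hw => ?_⟩⟩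
  · refine (hzle _ k).trans (Real.exp_le_exp.2 ((hheight _).trans ?_))
    refine add_le_add hCle ?_
    exact mul_le_mul_of_nonneg_right (Nat.cast_le.2 hrN) (absLogHeight_nonneg _)
  · have h1 : ∀ i, ∑ k, w k * c k i = 0 := by
      have h2 : ∑ i, (∑ k, w k * c k i) • v (b i) = 0 := by
        simp_rw [Finset.sum_smul]
        rw [Finset.sum_comm, ← hw]
        refine Finset.sum_congr rfl fun k _ => ?_
        simp_rw [mul_smul]
        rw [← Finset.smul_sum, hc, Rat.smul_def]
      exact Fintype.linearIndependent_iff.1 hvli _ h2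
    simp_rw [hz]
    rw [← mul_zero (a i), ← h1 i, Finset.mul_sum]
    refine Finset.sum_congr rfl fun k _ => by ring
  · have h1 : ∀ i, ∑ k, w k * c k i = 0 := by
      intro i
      have h2 := hw i
      simp_rw [hz] at h2
      have h3 : a i * ∑ k, w k * c k i = 0 := by
        rw [← h2, Finset.mul_sum]
        refine Finset.sum_congr rfl fun k _ => by ring
      exact (mul_eq_zero.1 h3).resolve_left (ha i)
    have h2 : ∑ i, (∑ k, w k * c k i) • v (b i) = ∑ k, (w k : Qbar) * v k := by
      simp_rw [Finset.sum_smul]
      rw [Finset.sum_comm]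
      refine Finset.sum_congr rfl fun k _ => ?_
      simp_rw [mul_smul]
      rw [← Finset.smul_sum, hc, Rat.smul_def]
    rw [← h2]
    exact Finset.sum_eq_zero fun i _ => by rw [h1 i, zero_smul]

end Pool.Agent.Helper17.AL
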