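import Pool.Agent.Helper17.AL.Cnt
import Pool.Agent.Helper17.AP.Final

set_option autoImplicit false

/-! # Forms vanishing at an algebraic point of small height -/

namespace Pool.Agent.Helper17.AL

open Finset Pool.Agent.Helper259.AbsHt Module Pool.Agent.R870.RC MvPolynomial
  Pool.Agent.Helper17.AP

variable {n : ℕ}

/-- the vector of the monomials of degree `d` -/
noncomputable def mv (n d : ℕ) (x : Fin (n + 1) → Qbar) (m : Mo n d) : Qbar :=
  ∏ k, x k ^ (m.1 k)

/-- a rational form of degree `d` at `x` is in the span of the monomials -/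
theorem aeval_mem (d : ℕ) (x : Fin (n + 1) → Qbar) (P : MvPolynomial (Fin (n + 1)) ℚ)
    (hP : P.IsHomogeneous d) : aeval x P ∈ Submodule.span ℚ (Set.range (mv n d x)) := by
  classical
  rw [MvPolynomial.aeval_def, MvPolynomial.eval₂_eq']
  refine Submodule.sum_mem _ fun m hm => ?_
  have hm' : m ∈ Mo n d := by
    rw [mem_Mo, Finsupp.degree_eq_weight_one]
    exact hP (MvPolynomial.mem_support_iff.1 hm)
  have h1 : (algebraMap ℚ Qbar) (coeff m P) * ∏ i, x i ^ m i =
      (coeff m P) • mv n d x ⟨m, hm'⟩ := by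
    rw [Algebra.smul_def]
    rfl
  rw [h1]
  exact Submodule.smul_mem _ _ (Submodule.subset_span ⟨_, rfl⟩)

/-- the monomials of degree `d` at a point of degree at least `e` span a space of dimension
at least `e`, if `d` is at least `e - 1` -/
theorem rank_le (d e : ℕ) (hd : e ≤ d + 1) (x : Fin (n + 1) → Qbar) (j : Fin (n + 1))
    (hj : x j = 1) (hx : e ≤ finrank ℚ (fieldOf x)) :
    e ≤ finrank ℚ (Submodule.span ℚ (Set.range (mv n d x))) := by
  classical
  -- a primitive element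
  obtain ⟨G, _, hcard, hG⟩ := many_good x (Finset.range (n * finrank ℚ (fieldOf x) ^ 2 + 1))
  rw [Finset.card_range] at hcard
  obtain ⟨t, ht⟩ : G.Nonempty := by
    rw [← Finset.card_pos]
    omega
  have hdeg := natDegree_lt x t (hG t ht)
  have hle : e ≤ (minpoly ℚ (lt t x)).natDegree := by rw [hdeg]; exact hx
  have hli : LinearIndependent ℚ (fun i : Fin e => lt t x ^ (i : ℕ)) :=
    (linearIndependent_pow (K := ℚ) (lt t x)).comp (Fin.castLE hle) (Fin.castLE_injective hle)
  have hmem : ∀ i : Fin e, lt t x ^ (i : ℕ) ∈ Submodule.span ℚ (Set.range (mv n d x)) := by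
    intro i
    set L : MvPolynomial (Fin (n + 1)) ℚ := ∑ k : Fin (n + 1), C ((t : ℚ) ^ (k : ℕ)) * X k with hL
    have hLh : L.IsHomogeneous 1 := by
      refine MvPolynomial.IsHomogeneous.sum _ _ _ fun k _ => ?_
      have := (isHomogeneous_C (Fin (n + 1)) ((t : ℚ) ^ (k : ℕ))).mul (isHomogeneous_X ℚ k)
      rwa [zero_add] at this
    have h1 : (X j ^ (d - (i : ℕ)) * L ^ (i : ℕ) : MvPolynomial (Fin (n + 1)) ℚ).IsHomogeneous
        d := by
      have h2 := ((isHomogeneous_X ℚ j).pow (d - (i : ℕ))).mul (hLh.pow (i : ℕ))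
      have h3 : 1 * (d - (i : ℕ)) + 1 * (i : ℕ) = d := by
        have := i.2
        omega
      rwa [h3] at h2
    have h2 := aeval_mem d x _ h1
    have h3 : aeval x (X j ^ (d - (i : ℕ)) * L ^ (i : ℕ) : MvPolynomial (Fin (n + 1)) ℚ) =
        lt t x ^ (i : ℕ) := by
      rw [map_mul, map_pow, map_pow, aeval_X, hj, one_pow, one_mul, hL, map_sum]
      congr 1
      unfold lt
      refine Finset.sum_congr rfl fun k _ => ?_
      rw [map_mul, aeval_X, aeval_C]
      simp
    rwa [h3] at h2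
  have hfin : Module.Finite ℚ (Submodule.span ℚ (Set.range (mv n d x))) :=
    Module.Finite.span_of_finite ℚ (Set.finite_range _)
  have h1 := finrank_span_eq_card hli
  rw [Fintype.card_fin] at h1
  rw [← h1]
  refine Submodule.finrank_mono (Submodule.span_le.2 ?_)
  rintro _ ⟨i, rfl⟩
  exact hmem i

/-- the height of the vector of the monomials -/
theorem height_mv (n d : ℕ) : ∃ C : ℝ, ∀ x : Fin (n + 1) → Qbar,
    absLogHeight (mv n d x) ≤ C + d * absLogHeight x := by
  classical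
  obtain ⟨C, hC⟩ := absLogHeight_eval d (fun m : Mo n d => monomial m.1 (1 : Qbar)) (fun m => by
    refine isHomogeneous_monomial _ ?_
    have := m.2
    rwa [mem_Mo] at this)
  refine ⟨C, fun x => (le_of_eq ?_).trans (hC x)⟩
  congr 1
  funext m
  unfold mv
  rw [eval_monomial, one_mul, Finsupp.prod_fintype _ _ (fun i => pow_zero _)]

/-- the systems `F = (F_1, …, F_s)` of forms of degrees `d_1, …, d_s` with integer coefficients of
absolute value at most `H` such that `V ∩ {F_1 = ⋯ = F_s = 0}`, `V` the projective variety defined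
by the set `E` of forms, has an algebraic point of degree at least `e` (over any number field) and
of absolute multiplicative height at most `B` -/
def PointAtLeast (E : Set (MvPolynomial (Fin (n + 1)) ℚ)) (e : ℕ) {s : ℕ} (d : Fin s → ℕ) (H : ℕ)
    (B : ℝ) : Set (Fin s → MvPolynomial (Fin (n + 1)) ℤ) :=
  {F | F ∈ Systems n d H ∧ ∃ k, e ≤ k ∧ ∃ x : Fin (n + 1) → Qbar, IsPoint k B x ∧
    (∀ P ∈ E, aeval x P = 0) ∧ ∀ i, aeval x (F i) = 0}

open Classical in
/-- **one form** -/
theorem one_form (n d e : ℕ) (hd : e ≤ d + 1) : ∃ K : ℝ, 0 < K ∧ ∀ (H : ℕ) (B : ℝ), 1 ≤ B →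
    (((FF n d H).filter (fun F => ∃ k, e ≤ k ∧ ∃ x : Fin (n + 1) → Qbar, IsPoint k B x ∧
      aeval x F = 0)).card : ℝ) * (2 * (H : ℝ) + 1) ^ e ≤
      K * B ^ (e * (d * (n + d).choose d ^ 2)) * ((FF n d H).card : ℝ) := by
  obtain ⟨K, hK, h⟩ := small_count (Mo n d) e
  obtain ⟨C, hC⟩ := height_mv n d
  have hN : Fintype.card (Mo n d) = (n + d).choose d := by
    rw [Fintype.card_coe, card_Mo]
  rw [hN] at h
  set N := (n + d).choose d with hNdef
  refine ⟨K * Real.exp |C| ^ (e * N ^ 2), by positivity, fun H B hB => ?_⟩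
  have hB0 : 0 < B := by linarith
  have hB1 : 1 ≤ Real.exp |C| * B ^ d :=
    one_le_mul_of_one_le_of_one_le (Real.one_le_exp (abs_nonneg _)) (one_le_pow₀ hB)
  have h1 := h H _ hB1
  have hle : ((FF n d H).filter (fun F => ∃ k, e ≤ k ∧ ∃ x : Fin (n + 1) → Qbar, IsPoint k B x ∧
      aeval x F = 0)).card ≤ ((Bx (Mo n d) H).filter (fun w => ∃ v : Mo n d → Qbar,
      absLogHeight v ≤ Real.log (Real.exp |C| * B ^ d) ∧
      e ≤ finrank ℚ (Submodule.span ℚ (Set.range v)) ∧ ∑ k, (w k : Qbar) * v k = 0)).card := by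
    have hsub : (FF n d H).filter (fun F => ∃ k, e ≤ k ∧ ∃ x : Fin (n + 1) → Qbar, IsPoint k B x ∧
      aeval x F = 0) ⊆ ((Bx (Mo n d) H).filter (fun w => ∃ v : Mo n d → Qbar,
      absLogHeight v ≤ Real.log (Real.exp |C| * B ^ d) ∧
      e ≤ finrank ℚ (Submodule.span ℚ (Set.range v)) ∧
      ∑ k, (w k : Qbar) * v k = 0)).image (Phi n d) := by
      intro F hF
      rw [Finset.mem_filter] at hF
      obtain ⟨hF, k, hk, x, ⟨⟨j, hj⟩, hx2, hx3⟩, hx4⟩ := hF
      unfold FF at hF
      rw [Finset.mem_image] at hF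
      obtain ⟨w, hw, rfl⟩ := hF
      refine Finset.mem_image_of_mem _ (Finset.mem_filter.2 ⟨?_, mv n d x, ?_, ?_, ?_⟩)
      · rw [mem_Bx]
        intro m
        rw [Fintype.mem_piFinset] at hw
        exact abs_le.2 (Finset.mem_Icc.1 (hw m))
      · rw [Real.log_mul (Real.exp_pos _).ne' (pow_pos hB0 _).ne', Real.log_exp, Real.log_pow]
        refine (hC x).trans (add_le_add (le_abs_self _) ?_)
        exact mul_le_mul_of_nonneg_left hx3 (Nat.cast_nonneg _)
      · exact rank_le d e hd x j hj (hk.trans hx2.ge)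
      · rw [← hx4, aeval_Phi]
        rfl
    exact (Finset.card_le_card hsub).trans Finset.card_image_le
  have h2 : ((FF n d H).card : ℝ) = (2 * (H : ℝ) + 1) ^ N := by
    rw [card_FF, card_Mo, Nat.cast_pow, Nat.cast_add, Nat.cast_mul, Nat.cast_ofNat, Nat.cast_one]
  rw [h2]
  have hQ : (0 : ℝ) < (2 * (H : ℝ) + 1) ^ e := by positivity
  refine (mul_le_mul_of_nonneg_right (Nat.cast_le.2 hle) hQ.le).trans (h1.trans (le_of_eq ?_))
  rw [mul_pow, ← pow_mul]
  have h3 : d * (e * N ^ 2) = e * (d * N ^ 2) := by ring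
  rw [h3]
  ring

open Classical in
/-- **the upper bound** -/
theorem upper_all (n s e : ℕ) (E : Set (MvPolynomial (Fin (n + 1)) ℚ)) (d : Fin s → ℕ)
    (hd : ∀ i, e ≤ d i + 1) : ∃ K : ℝ, 0 < K ∧ ∀ (H : ℕ) (B : ℝ), 1 ≤ H → 1 ≤ B →
    ((PointAtLeast E e d H B).ncard : ℝ) ≤
      K * B ^ (e * ∑ i, d i * (n + d i).choose (d i) ^ 2) / (H : ℝ) ^ (e * s) *
        ((Systems n d H).ncard : ℝ) := by
  choose K hK0 hK using fun i => one_form n (d i) e (hd i)
  refine ⟨∏ i, K i, Finset.prod_pos fun i _ => hK0 i, fun H B hH hB => ?_⟩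
  have hH0 : (0 : ℝ) < H := by exact_mod_cast hH
  have hB0 : 0 < B := by linarith
  set A : Fin s → Finset (MvPolynomial (Fin (n + 1)) ℤ) := fun i =>
    (FF n (d i) H).filter (fun F => ∃ k, e ≤ k ∧ ∃ x : Fin (n + 1) → Qbar, IsPoint k B x ∧
      aeval x F = 0) with hA
  have hsub : PointAtLeast E e d H B ⊆ (Fintype.piFinset A : Finset _) := by
    rintro F ⟨hF, k, hk, x, hx, _, hx0⟩
    rw [Finset.mem_coe, Fintype.mem_piFinset]
    intro i
    exact Finset.mem_filter.2 ⟨(mem_FF _).2 (hF i), k, hk, x, hx, hx0 i⟩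
  have h1 : (PointAtLeast E e d H B).ncard ≤ (Fintype.piFinset A).card := by
    have h2 := Set.ncard_le_ncard hsub (Finset.finite_toSet _)
    rwa [Set.ncard_coe_finset] at h2
  have h2 : ((Fintype.piFinset A).card : ℝ) = ∏ i, ((A i).card : ℝ) := by
    rw [Fintype.card_piFinset, Nat.cast_prod]
  have h3 : ((Systems n d H).ncard : ℝ) = ∏ i, ((FF n (d i) H).card : ℝ) := by
    rw [card_systems, Nat.cast_prod]
  rw [h3]
  refine (Nat.cast_le.2 h1).trans ?_
  rw [h2]
  have h4 : ∀ i ∈ (Finset.univ : Finset (Fin s)), ((A i).card : ℝ) ≤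
      (K i * B ^ (e * (d i * (n + d i).choose (d i) ^ 2)) / (H : ℝ) ^ e) *
        ((FF n (d i) H).card : ℝ) := by
    intro i _
    have h5 := hK i H B hB
    have h6 : (0 : ℝ) < (H : ℝ) ^ e := pow_pos hH0 _
    have h7 : (H : ℝ) ^ e ≤ (2 * (H : ℝ) + 1) ^ e := pow_le_pow_left₀ hH0.le (by linarith) _
    rw [div_mul_eq_mul_div, le_div_iff₀ h6]
    exact (mul_le_mul_of_nonneg_left h7 (Nat.cast_nonneg _)).trans h5
  refine (Finset.prod_le_prod (fun i _ => Nat.cast_nonneg _) h4).trans (le_of_eq ?_)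
  rw [Finset.prod_mul_distrib, Finset.prod_div_distrib, Finset.prod_mul_distrib,
    Finset.prod_const, Finset.card_univ, Fintype.card_fin, ← pow_mul, Finset.prod_pow_eq_pow_sum,
    Finset.mul_sum]

end Pool.Agent.Helper17.AL
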