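import Pool.Agent.Helper17.AL.Dual
import Pool.Agent.Helper17.AL.Mn

set_option autoImplicit false

/-! # Algebraic points of small height in families -/

namespace Pool.Agent.Helper17.AL

open Finset Pool.Agent.Helper259.AbsHt Module Pool.Agent.R870.RC MvPolynomial

variable {n N : ℕ}

/-- the specialisation of a form whose coefficients are polynomials in `N` parameters -/
noncomputable def spec (G : MvPolynomial (Fin (n + 1)) (MvPolynomial (Fin N) ℚ)) (b : Fin N → ℚ) :
    MvPolynomial (Fin (n + 1)) ℚ := map (eval b) G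

theorem aeval_spec {d : ℕ} (G : MvPolynomial (Fin (n + 1)) (MvPolynomial (Fin N) ℚ))
    (hG : G.IsHomogeneous d) (b : Fin N → ℚ) (x : Fin (n + 1) → Qbar) :
    aeval x (spec G b) = ∑ m : Mo n d, ((eval b (coeff m.1 G) : ℚ) : Qbar) * mv n d x m := by
  classical
  unfold spec
  rw [aeval_def, eval₂_map, eval₂_eq']
  have hsub : G.support ⊆ Mo n d := by
    intro m hm
    rw [mem_Mo, Finsupp.degree_eq_weight_one]
    exact hG (mem_support_iff.1 hm)
  have h1 : ∑ m ∈ G.support, ((algebraMap ℚ Qbar).comp (eval b)) (coeff m G) * ∏ i, x i ^ m i =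
      ∑ m ∈ Mo n d, ((algebraMap ℚ Qbar).comp (eval b)) (coeff m G) * ∏ i, x i ^ m i := by
    refine Finset.sum_subset hsub fun m _ hm => ?_
    rw [notMem_support_iff.1 hm, map_zero, zero_mul]
  rw [h1, ← Finset.sum_coe_sort]
  refine Finset.sum_congr rfl fun m _ => ?_
  rw [RingHom.comp_apply]
  rfl

/-- the polynomial in the parameters given by a functional -/
noncomputable def UU {d : ℕ} (G : MvPolynomial (Fin (n + 1)) (MvPolynomial (Fin N) ℚ))
    (z : Mo n d → ℤ) : MvPolynomial (Fin N) ℚ := ∑ m : Mo n d, C (z m : ℚ) * coeff m.1 G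

theorem eval_UU {d : ℕ} (G : MvPolynomial (Fin (n + 1)) (MvPolynomial (Fin N) ℚ))
    (z : Mo n d → ℤ) (b : Fin N → ℚ) :
    eval b (UU G z) = ∑ m : Mo n d, (z m : ℚ) * eval b (coeff m.1 G) := by
  unfold UU
  rw [map_sum]
  refine Finset.sum_congr rfl fun m _ => ?_
  rw [map_mul, eval_C]

theorem degreeOf_UU {d : ℕ} (G : MvPolynomial (Fin (n + 1)) (MvPolynomial (Fin N) ℚ))
    (z : Mo n d → ℤ) (i : Fin N) :
    degreeOf i (UU G z) ≤ ∑ m : Mo n d, degreeOf i (coeff m.1 G) := by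
  classical
  unfold UU
  refine (degreeOf_sum_le _ _ _).trans (Finset.sup_le fun m _ => ?_)
  refine (degreeOf_C_mul_le _ _ _).trans ?_
  exact Finset.single_le_sum (f := fun m : Mo n d => degreeOf i (coeff m.1 G))
    (fun _ _ => Nat.zero_le _) (mem_univ m)

open Classical in
/-- Schwartz–Zippel -/
theorem zeros_le (p : MvPolynomial (Fin N) ℚ) (hp : p ≠ 0) (Δ : ℕ)
    (hΔ : ∑ i, degreeOf i p ≤ Δ) (M : ℕ) (hM : 1 ≤ M) (A : Fin N → Finset ℚ)
    (hA : ∀ i, M ≤ (A i).card) :
    (((Fintype.piFinset A).filter (fun b => eval b p = 0)).card : ℝ) ≤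
      Δ / M * ((Fintype.piFinset A).card : ℝ) := by
  have h1 := schwartz_zippel_sum_degreeOf hp A
  have hpos : ∀ i, 0 < (A i).card := fun i => by
    have := hA i
    omega
  have hprod : (0 : NNRat) < ∏ i, ((A i).card : NNRat) :=
    Finset.prod_pos fun i _ => Nat.cast_pos.2 (hpos i)
  rw [div_le_iff₀ hprod] at h1
  have h2 : ∑ i, ((degreeOf i p : NNRat) / ((A i).card : NNRat)) ≤ (Δ : NNRat) / (M : NNRat) := by
    have hM0 : (0 : NNRat) < (M : NNRat) := Nat.cast_pos.2 hM
    calc _ ≤ ∑ i, (degreeOf i p : NNRat) / (M : NNRat) := Finset.sum_le_sum fun i _ =>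
          div_le_div_of_nonneg_left (Nat.cast_nonneg _) hM0 (Nat.cast_le.2 (hA i))
      _ = ((∑ i, degreeOf i p : ℕ) : NNRat) / (M : NNRat) := by
          rw [Nat.cast_sum, Finset.sum_div]
      _ ≤ _ := by
          rw [div_le_div_iff_of_pos_right hM0]
          exact Nat.cast_le.2 hΔ
  have h3 := h1.trans (mul_le_mul_of_nonneg_right h2 hprod.le)
  have h4 : ((((Fintype.piFinset A).filter (fun b => eval b p = 0)).card : NNRat) : ℝ) ≤
      (((Δ : NNRat) / (M : NNRat) * ∏ i, ((A i).card : NNRat) : NNRat) : ℝ) := by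
    exact_mod_cast h3
  rw [Fintype.card_piFinset]
  push_cast at h4 ⊢
  exact h4

open Classical in
/-- **one form** -/
theorem fam_one (d : ℕ) (G : MvPolynomial (Fin (n + 1)) (MvPolynomial (Fin N) ℚ))
    (hG : G.IsHomogeneous d) : ∃ K : ℝ, 0 < K ∧ ∀ (B : ℝ) (M : ℕ) (A : Fin N → Finset ℚ), 1 ≤ B →
    1 ≤ M → (∀ i, M ≤ (A i).card) →
    (((Fintype.piFinset A).filter (fun b => ∃ x : Fin (n + 1) → Qbar,
      absLogHeight x ≤ Real.log B ∧ aeval x (spec G b) = 0 ∧
        ∃ b', aeval x (spec G b') ≠ 0)).card : ℝ) ≤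
      K * B ^ (d * (n + d).choose d ^ 2) / M * ((Fintype.piFinset A).card : ℝ) := by
  obtain ⟨C₁, hC₁0, hC₁⟩ := small_dual (Mo n d)
  obtain ⟨C₂, hC₂⟩ := height_mv n d
  have hN : Fintype.card (Mo n d) = (n + d).choose d := by
    rw [Fintype.card_coe, card_Mo]
  rw [hN] at hC₁
  set L := (n + d).choose d with hL
  set Δ : ℕ := ∑ i, ∑ m : Mo n d, degreeOf i (coeff m.1 G) with hΔ
  set c : ℝ := Real.exp (C₁ + L * |C₂|) with hc
  have hc1 : 1 ≤ c := Real.one_le_exp (by positivity)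
  refine ⟨(3 * c) ^ L * (Δ + 1), by positivity, fun B M A hB hM hA => ?_⟩
  have hB0 : 0 < B := by linarith
  have hM0 : (0 : ℝ) < M := by exact_mod_cast hM
  set Y : ℝ := c * B ^ (d * L) with hY
  have hY1 : 1 ≤ Y := one_le_mul_of_one_le_of_one_le hc1 (one_le_pow₀ hB)
  set X : ℕ := ⌊Y⌋₊ with hX
  have hsub : (Fintype.piFinset A).filter (fun b => ∃ x : Fin (n + 1) → Qbar,
      absLogHeight x ≤ Real.log B ∧ aeval x (spec G b) = 0 ∧
        ∃ b', aeval x (spec G b') ≠ 0) ⊆
      ((Bx (Mo n d) X).filter (fun z => UU G z ≠ 0)).biUnion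
        (fun z => (Fintype.piFinset A).filter (fun b => eval b (UU G z) = 0)) := by
    intro b hb
    rw [Finset.mem_filter] at hb
    obtain ⟨hbA, x, hx1, hx2, b', hx3⟩ := hb
    obtain ⟨r, z, hz1, hz2⟩ := hC₁ (mv n d x)
    rw [aeval_spec G hG] at hx2 hx3
    have h1 := (hz2 _).1 hx2
    have h2 : ¬ ∀ i, ∑ m : Mo n d, (z i m : ℚ) * eval b' (coeff m.1 G) = 0 :=
      fun h => hx3 ((hz2 _).2 h)
    push Not at h2
    obtain ⟨i, hi⟩ := h2
    rw [Finset.mem_biUnion]
    refine ⟨z i, Finset.mem_filter.2 ⟨?_, ?_⟩, Finset.mem_filter.2 ⟨hbA, ?_⟩⟩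
    · rw [mem_Bx]
      intro m
      have h3 : |(z i m : ℝ)| ≤ Y := by
        refine (hz1 i m).trans ?_
        have h4 : C₁ + L * absLogHeight (mv n d x) ≤ (C₁ + L * |C₂|) + (d * L : ℕ) * Real.log B := by
          have h5 : absLogHeight (mv n d x) ≤ |C₂| + d * Real.log B :=
            (hC₂ x).trans (add_le_add (le_abs_self _)
              (mul_le_mul_of_nonneg_left hx1 (Nat.cast_nonneg _)))
          have h6 := mul_le_mul_of_nonneg_left h5 (Nat.cast_nonneg (α := ℝ) L)
          push_cast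
          nlinarith
        refine (Real.exp_le_exp.2 h4).trans ?_
        rw [Real.exp_add, ← Real.log_pow, Real.exp_log (pow_pos hB0 _)]
      have h4 : |z i m| = ((z i m).natAbs : ℤ) := (Int.natCast_natAbs _).symm
      rw [h4]
      have h5 : (z i m).natAbs ≤ X := by
        rw [hX]
        refine Nat.le_floor ?_
        rw [Nat.cast_natAbs, Int.cast_abs]
        exact h3
      exact Nat.cast_le.2 h5
    · intro h
      apply hi
      rw [← eval_UU, h, map_zero]
    · rw [eval_UU]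
      exact h1 i
  have hone : ∀ z ∈ (Bx (Mo n d) X).filter (fun z => UU G z ≠ 0),
      (((Fintype.piFinset A).filter (fun b => eval b (UU G z) = 0)).card : ℝ) ≤
        Δ / M * ((Fintype.piFinset A).card : ℝ) := by
    intro z hz
    rw [Finset.mem_filter] at hz
    refine zeros_le _ hz.2 Δ ?_ M hM A hA
    exact Finset.sum_le_sum fun i _ => degreeOf_UU G z i
  have hcard : (((Bx (Mo n d) X).filter (fun z => UU G z ≠ 0)).card : ℝ) ≤
      (3 * c) ^ L * B ^ (d * L ^ 2) := by
    have h1 : ((Bx (Mo n d) X).filter (fun z => UU G z ≠ 0)).card ≤ (2 * X + 1) ^ L := by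
      refine (Finset.card_filter_le _ _).trans (le_of_eq ?_)
      rw [card_Bx, hN]
    have h2 : (((Bx (Mo n d) X).filter (fun z => UU G z ≠ 0)).card : ℝ) ≤
        (2 * (X : ℝ) + 1) ^ L := by
      have h3 := Nat.cast_le (α := ℝ).2 h1
      rw [Nat.cast_pow, Nat.cast_add, Nat.cast_mul, Nat.cast_ofNat, Nat.cast_one] at h3
      exact h3
    have h3 : 2 * (X : ℝ) + 1 ≤ 3 * c * B ^ (d * L) := by
      have h4 : (X : ℝ) ≤ Y := Nat.floor_le (by linarith)
      rw [mul_assoc, ← hY]
      linarith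
    refine h2.trans ((pow_le_pow_left₀ (by positivity) h3 _).trans (le_of_eq ?_))
    rw [mul_pow, ← pow_mul]
    congr 2
    ring
  have hP : (0 : ℝ) ≤ ((Fintype.piFinset A).card : ℝ) := Nat.cast_nonneg _
  calc _ ≤ ∑ z ∈ (Bx (Mo n d) X).filter (fun z => UU G z ≠ 0),
        (((Fintype.piFinset A).filter (fun b => eval b (UU G z) = 0)).card : ℝ) := by
        have h1 := (Finset.card_le_card hsub).trans Finset.card_biUnion_le
        have h2 := Nat.cast_le (α := ℝ).2 h1
        rw [Nat.cast_sum] at h2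
        exact h2
    _ ≤ (((Bx (Mo n d) X).filter (fun z => UU G z ≠ 0)).card : ℝ) *
        (Δ / M * ((Fintype.piFinset A).card : ℝ)) := by
        refine (Finset.sum_le_card_nsmul _ _ _ hone).trans (le_of_eq ?_)
        rw [nsmul_eq_mul]
    _ ≤ ((3 * c) ^ L * B ^ (d * L ^ 2)) * ((Δ + 1) / M * ((Fintype.piFinset A).card : ℝ)) := by
        refine mul_le_mul hcard ?_ (by positivity) (by positivity)
        refine mul_le_mul_of_nonneg_right ?_ hP
        exact div_le_div_of_nonneg_right (by linarith) hM0.le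
    _ = _ := by ring

end Pool.Agent.Helper17.AL
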