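import Pool.Agent.Helper17.AL.Conj

set_option autoImplicit false

/-! # Small rational functionals of a vector of algebraic numbers -/

namespace Pool.Agent.Helper17.AL

open Finset Pool.Agent.Helper259.AbsHt Module Height

/-- a rational vector is proportional to an integral vector whose size is the height -/
theorem exists_int {κ : Type} [Fintype κ] (c : κ → ℚ) (k0 : κ) (h0 : c k0 = 1) :
    ∃ (z : κ → ℤ) (a : ℚ), a ≠ 0 ∧ (∀ k, (z k : ℚ) = a * c k) ∧
      ∀ k, |(z k : ℝ)| ≤ Real.exp (absLogHeight (fun k => (c k : Qbar))) := by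
  classical
  have : Nonempty κ := ⟨k0⟩
  -- clear the denominators
  obtain ⟨D, hD, y, hy⟩ : ∃ D : ℤ, D ≠ 0 ∧ ∃ y : κ → ℤ, ∀ k, (y k : ℚ) = D * c k := by
    refine ⟨∏ k, ((c k).den : ℤ), ?_, fun k => (∏ j ∈ univ.erase k, ((c j).den : ℤ)) * (c k).num,
      fun k => ?_⟩
    · exact Finset.prod_ne_zero_iff.2 fun k _ => by exact_mod_cast (c k).den_nz
    · rw [← Finset.mul_prod_erase univ (fun k => ((c k).den : ℤ)) (mem_univ k)]
      push_cast
      have h1 : (c k) * ((c k).den : ℚ) = (c k).num := Rat.mul_den_eq_num _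
      rw [← h1]
      ring
  have hyk0 : y k0 ≠ 0 := by
    intro h
    have h1 := hy k0
    rw [h, h0, mul_one] at h1
    apply hD
    exact_mod_cast h1.symm
  -- divide by the content
  have hg0 : univ.gcd y ≠ 0 := by
    intro h
    rw [Finset.gcd_eq_zero_iff] at h
    exact hyk0 (h k0 (mem_univ _))
  obtain ⟨z, hz, hz1⟩ := Finset.extract_gcd y ⟨k0, mem_univ k0⟩
  obtain ⟨g, hg⟩ : ∃ g : ℤ, g = univ.gcd y := ⟨_, rfl⟩
  rw [← hg] at hz hg0
  have hgq : (g : ℚ) ≠ 0 := by exact_mod_cast hg0
  have hDq : (D : ℚ) ≠ 0 := by exact_mod_cast hD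
  have hzc : ∀ k, (z k : ℚ) = ((D : ℚ) / g) * c k := by
    intro k
    have h1 := hz k (mem_univ _)
    have h2 := hy k
    rw [h1] at h2
    push_cast at h2
    field_simp
    linarith
  refine ⟨z, (D : ℚ) / g, div_ne_zero hDq hgq, hzc, fun k => ?_⟩
  have hz2 := absLogHeight_int z hz1
  have h3 : (fun k => (z k : Qbar)) = ((((D : ℚ) / g : ℚ) : Qbar)) • fun k => (c k : Qbar) := by
    funext k
    have := hzc k
    rw [Pi.smul_apply, smul_eq_mul, ← Rat.cast_mul, ← this]
    simp
  have h4 : ((((D : ℚ) / g : ℚ) : Qbar)) ≠ 0 := by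
    exact_mod_cast div_ne_zero hDq hgq
  rw [h3, absLogHeight_smul _ h4] at hz2
  rw [hz2]
  have hbdd : BddAbove (Set.range fun i => |z i|) := (Set.finite_range _).bddAbove
  have hk : |z k| ≤ ⨆ i, |z i| := le_ciSup hbdd k
  have hpos : 0 < (⨆ i, |z i| : ℤ) := by
    refine lt_of_lt_of_le ?_ (le_ciSup hbdd k0)
    have : z k0 ≠ 0 := by
      intro h
      have h5 := hzc k0
      rw [h, h0, mul_one] at h5
      exact (div_ne_zero hDq hgq) (by exact_mod_cast h5.symm)
    exact abs_pos.2 this
  rw [Real.exp_log (by exact_mod_cast hpos)]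
  exact_mod_cast hk

/-- **Small functionals.** For a vector `v` of algebraic numbers whose entries span a space of
dimension at least `e` over `ℚ` there are `e` integral vectors in echelon form, of size at most
`C H(v) ^ N`, orthogonal to all the rational relations between the entries of `v`. -/
theorem small_functionals (κ : Type) [Fintype κ] : ∃ C : ℝ, 0 ≤ C ∧
    ∀ (v : κ → Qbar) (e : ℕ), e ≤ finrank ℚ (Submodule.span ℚ (Set.range v)) →
      ∃ (f : Fin e → κ) (z : Fin e → κ → ℤ), Function.Injective f ∧ (∀ i, z i (f i) ≠ 0) ∧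
        (∀ i j, i ≠ j → z i (f j) = 0) ∧
        (∀ i k, |(z i k : ℝ)| ≤ Real.exp (C + Fintype.card κ * absLogHeight v)) ∧
        ∀ w : κ → ℤ, ∑ k, (w k : Qbar) * v k = 0 → ∀ i, ∑ k, z i k * w k = 0 := by
  classical
  choose Cr hCr0 hCr using fun r : ℕ => absLogHeight_det κ r
  refine ⟨∑ r ∈ Finset.range (Fintype.card κ + 1), Cr r, Finset.sum_nonneg fun r _ => hCr0 r,
    fun v e he => ?_⟩
  obtain ⟨r, hr⟩ : ∃ r : ℕ, r = finrank ℚ (Submodule.span ℚ (Set.range v)) := ⟨_, rfl⟩
  have hfin : Module.Finite ℚ (Submodule.span ℚ (Set.range v)) :=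
    Module.Finite.span_of_finite ℚ (Set.finite_range v)
  obtain ⟨g, hg, hspan, hli⟩ := Submodule.exists_fun_fin_finrank_span_eq ℚ (Set.range v)
  rw [← hr] at he
  have hrN : r ≤ Fintype.card κ := by
    rw [hr]
    exact finrank_range_le_card v
  -- a basis of the span among the entries
  obtain ⟨b, hb⟩ : ∃ b : Fin r → κ, ∀ i, v (b i) = g (Fin.cast hr i) := by
    choose b hb using fun i => hg (Fin.cast hr i)
    exact ⟨b, hb⟩
  have hvli : LinearIndependent ℚ (fun i => v (b i)) := by
    have : (fun i => v (b i)) = g ∘ Fin.cast hr := by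
      funext i
      exact hb i
    rw [this]
    exact hli.comp _ (Fin.cast_injective _)
  have hmem : ∀ k, v k ∈ Submodule.span ℚ (Set.range fun i => v (b i)) := by
    intro k
    have h1 : v k ∈ Submodule.span ℚ (Set.range g) := by
      rw [hspan]
      exact Submodule.subset_span ⟨k, rfl⟩
    refine Submodule.span_mono ?_ h1
    rintro _ ⟨i, rfl⟩
    refine ⟨Fin.cast hr.symm i, ?_⟩
    exact hb (Fin.cast hr.symm i)
  choose c hc using fun k => (Submodule.mem_span_range_iff_exists_fun ℚ).1 (hmem k)
  have hcb : ∀ i j, c (b i) j = if i = j then 1 else 0 := by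
    intro i
    have h1 : ∑ j, (c (b i) j - if i = j then 1 else 0) • v (b j) = 0 := by
      simp_rw [sub_smul]
      rw [Finset.sum_sub_distrib, hc]
      simp [ite_smul]
    intro j
    exact sub_eq_zero.1 (Fintype.linearIndependent_iff.1 hvli _ h1 j)
  -- conjugates
  obtain ⟨σ, hσ⟩ := exists_conj (fun i => v (b i)) hvli
  have hv0 : ∀ j, 0 < r → (fun k => σ j (v k)) ≠ 0 := by
    intro j hr0 h
    have h1 := hvli.ne_zero (⟨0, hr0⟩ : Fin r)
    apply h1
    have h2 := congrFun h (b ⟨0, hr0⟩)
    exact (map_eq_zero (σ j)).1 h2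
  -- the coordinate functionals
  have hheight : ∀ i : Fin r, absLogHeight (fun k => (c k i : Qbar)) ≤
      Cr r + r * absLogHeight v := by
    intro i
    have hr0 : 0 < r := i.pos
    have h1 := hCr r (fun j k => σ j (v k)) fun j => hv0 j hr0
    have h2 : ∑ j : Fin r, absLogHeight (fun k => σ j (v k)) = r * absLogHeight v := by
      rw [Finset.sum_congr rfl fun j _ => absLogHeight_conj (σ j) v]
      simp
    rw [h2] at h1
    refine le_trans ?_ h1
    have h3 := absLogHeight_comp_le (fun k : κ => (Function.update b i k : Fin r → κ))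
      (fun f : Fin r → κ => (Matrix.of fun j k => σ j (v (f k))).det)
    refine le_trans (le_of_eq ?_) h3
    rw [← absLogHeight_smul (fun k => (c k i : Qbar)) hσ]
    congr 1
    funext k
    simp only [Pi.smul_apply, smul_eq_mul, Function.comp_apply]
    have h4 : (Matrix.of fun j l => σ j (v (Function.update b i k l))) =
        (Matrix.of fun j l => σ j (v (b l))).updateCol i (fun j => ∑ l, (c k l : Qbar) •
          (Matrix.of fun j l => σ j (v (b l))) j l) := by
      ext j l
      rw [Matrix.updateCol_apply]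
      simp only [Matrix.of_apply]
      split_ifs with hl
      · subst hl
        rw [Function.update_self, ← hc k, map_sum]
        refine Finset.sum_congr rfl fun l _ => ?_
        rw [Rat.smul_def, map_mul, map_ratCast, smul_eq_mul]
      · rw [Function.update_of_ne hl]
    rw [h4, Matrix.det_updateCol_sum, smul_eq_mul, mul_comm]
  have hCle : Cr r ≤ ∑ r ∈ Finset.range (Fintype.card κ + 1), Cr r :=
    Finset.single_le_sum (fun r _ => hCr0 r) (Finset.mem_range.2 (by omega))
  choose z a ha hz hzle using fun i : Fin r => exists_int (fun k => c k i) (b i) (by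
    have := hcb i i
    simpa using this)
  have hbinj : Function.Injective b := by
    intro i j hij
    exact hvli.injective (by simp only [hij])
  refine ⟨fun i => b (Fin.castLE he i), fun i => z (Fin.castLE he i),
    hbinj.comp (Fin.castLE_injective he), fun i h => ?_, fun i j hij => ?_, fun i k => ?_,
    fun w hw i => ?_⟩
  · have h1 := hz (Fin.castLE he i) (b (Fin.castLE he i))
    have h2 : z (Fin.castLE he i) (b (Fin.castLE he i)) = 0 := h
    rw [h2, hcb] at h1
    simp only [if_true, mul_one, Int.cast_zero] at h1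
    exact ha _ h1.symm
  · have h1 := hz (Fin.castLE he i) (b (Fin.castLE he j))
    rw [hcb, if_neg, mul_zero] at h1
    · exact Int.cast_eq_zero.1 h1
    · intro h
      exact hij ((Fin.castLE_injective he) h).symm
  · refine (hzle _ k).trans (Real.exp_le_exp.2 ((hheight _).trans ?_))
    refine add_le_add hCle ?_
    exact mul_le_mul_of_nonneg_right (by exact_mod_cast hrN) (absLogHeight_nonneg _)
  · have h1 : ∀ i, ∑ k, (w k : ℚ) * c k i = 0 := by
      have h2 : ∑ i, (∑ k, (w k : ℚ) * c k i) • v (b i) = 0 := by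
        simp_rw [Finset.sum_smul]
        rw [Finset.sum_comm, ← hw]
        refine Finset.sum_congr rfl fun k _ => ?_
        simp_rw [mul_smul]
        rw [← Finset.smul_sum, hc, Rat.smul_def]
        simp
      exact Fintype.linearIndependent_iff.1 hvli _ h2
    have h3 : ((∑ k, z (Fin.castLE he i) k * w k : ℤ) : ℚ) = 0 := by
      push_cast
      simp_rw [hz]
      rw [← mul_zero (a (Fin.castLE he i)), ← h1 (Fin.castLE he i), Finset.mul_sum]
      refine Finset.sum_congr rfl fun k _ => by ring
    exact_mod_cast h3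

end Pool.Agent.Helper17.AL
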