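import Pool.Agent.Helper17.AL.Mn

set_option autoImplicit false

/-! # Every hypersurface has an algebraic point of small height -/

namespace Pool.Agent.Helper17.AL

open Finset Pool.Agent.Helper259.AbsHt Module Pool.Agent.R870.RC
  Pool.Agent.Helper17.AP

variable {n : ℕ}

open Polynomial Pool.Agent.Helper259.HtPoly in
/-- the sum of the heights of the roots -/
theorem sum_roots (n : ℕ) : ∃ C : ℝ, 0 ≤ C ∧ ∀ (k : ℕ) (P : Qbar[X]), P ≠ 0 → P.natDegree = k →
    k ≤ n → (P.roots.map (fun α => absLogHeight ![1, α])).sum ≤ k * C + absLogHeight (cv n P) := by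
  obtain ⟨C₁, hC₁⟩ := absLogHeight_root n
  refine ⟨|C₁| + Real.log (2 ^ n * (n + 1)), ?_, fun k => ?_⟩
  · have : (1 : ℝ) ≤ 2 ^ n * (n + 1) :=
      one_le_mul_of_one_le_of_one_le (one_le_pow₀ (by norm_num)) (by
        have : (0 : ℝ) ≤ n := Nat.cast_nonneg _
        linarith)
    exact add_nonneg (abs_nonneg _) (Real.log_nonneg this)
  induction k with
  | zero =>
    intro P hP hk _
    have h1 : P.roots = 0 := by
      rw [← Multiset.card_eq_zero]
      have := Polynomial.card_roots' P
      rw [hk] at this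
      exact Nat.le_zero.1 this
    rw [h1, Multiset.map_zero, Multiset.sum_zero, Nat.cast_zero, zero_mul, zero_add]
    exact absLogHeight_nonneg _
  | succ k ih =>
    intro P hP hk hkn
    have hdeg0 : P.degree ≠ 0 := by
      intro h
      have := Polynomial.natDegree_eq_zero_iff_degree_le_zero.2 h.le
      omega
    obtain ⟨α, hα⟩ := IsAlgClosed.exists_root P hdeg0
    obtain ⟨Q, hQ⟩ := Polynomial.dvd_iff_isRoot.mpr hα
    have hQ0 : Q ≠ 0 := by rintro rfl; simp at hQ; exact hP hQ
    have hdeg : (X - C α).natDegree + Q.natDegree = k + 1 := by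
      rw [← natDegree_mul (X_sub_C_ne_zero α) hQ0, ← hQ, hk]
    have h1 := absLogHeight_polymul n (X - C α) Q (X_sub_C_ne_zero α) hQ0 (by omega)
    rw [← hQ] at h1
    rw [natDegree_X_sub_C] at hdeg
    have h2 := ih Q hQ0 (by omega) (by omega)
    have h3 := hC₁ (X - C α) α (X_sub_C_ne_zero α) (by rw [natDegree_X_sub_C]; omega) (by simp)
    have h4 : P.roots = α ::ₘ Q.roots := by
      rw [hQ, roots_mul (mul_ne_zero (X_sub_C_ne_zero α) hQ0), roots_X_sub_C]
      rfl
    rw [h4, Multiset.map_cons, Multiset.sum_cons]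
    have h5 := le_abs_self C₁
    push_cast
    linarith

open Polynomial Pool.Agent.Helper259.HtPoly in
/-- a root of small height -/
theorem small_root (d : ℕ) (hd : 1 ≤ d) : ∃ C : ℝ, 0 ≤ C ∧ ∀ P : Qbar[X], P.natDegree = d →
    ∃ α, P.eval α = 0 ∧ d * absLogHeight ![1, α] ≤ C + absLogHeight (cv d P) := by
  obtain ⟨C, hC0, hC⟩ := sum_roots d
  refine ⟨d * C, by positivity, fun P hk => ?_⟩
  have hP : P ≠ 0 := by
    rintro rfl
    rw [natDegree_zero] at hk
    omega
  have h1 := hC d P hP hk le_rfl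
  have hcard : Multiset.card P.roots = d := by
    rw [← hk]
    exact (IsAlgClosed.splits P).natDegree_eq_card_roots.symm
  by_contra hcon
  push Not at hcon
  have hne : P.roots ≠ 0 := by
    intro h
    rw [h, Multiset.card_zero] at hcard
    omega
  obtain ⟨α, hα⟩ := Multiset.exists_mem_of_ne_zero hne
  -- every root has large height
  have h2 : ∀ α ∈ P.roots, (d * C + absLogHeight (cv d P)) / d < absLogHeight ![1, α] := by
    intro α hα
    rw [div_lt_iff₀ (by exact_mod_cast hd), mul_comm]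
    have := hcon α ((mem_roots hP).1 hα)
    linarith
  have h3 : (P.roots.map (fun _ => (d * C + absLogHeight (cv d P)) / d)).sum <
      (P.roots.map (fun α => absLogHeight ![1, α])).sum := by
    refine Multiset.sum_lt_sum (fun α hα => (h2 α hα).le) ⟨α, hα, h2 α hα⟩
  rw [Multiset.map_const', Multiset.sum_replicate, hcard, nsmul_eq_mul,
    mul_div_cancel₀ _ (by exact_mod_cast (show d ≠ 0 by omega))] at h3
  linarith

/-- height of an integral vector -/
theorem height_int_le {ι : Type} [Fintype ι] (y : ι → ℤ) (H : ℕ) (hy : ∀ i, |y i| ≤ H)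
    (h0 : y ≠ 0) : absLogHeight (fun i => (y i : Qbar)) ≤ Real.log H := by
  classical
  obtain ⟨i0, hi0⟩ := Function.ne_iff.1 h0
  have : Nonempty ι := ⟨i0⟩
  have hg0 : univ.gcd y ≠ 0 := by
    intro h
    rw [Finset.gcd_eq_zero_iff] at h
    exact hi0 (h i0 (mem_univ _))
  obtain ⟨z, hz, hz1⟩ := Finset.extract_gcd y ⟨i0, mem_univ i0⟩
  obtain ⟨g, hg⟩ : ∃ g : ℤ, g = univ.gcd y := ⟨_, rfl⟩
  rw [← hg] at hz hg0
  have h3 : (fun i => (y i : Qbar)) = (g : Qbar) • fun i => (z i : Qbar) := by
    funext i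
    rw [Pi.smul_apply, smul_eq_mul, hz i (mem_univ _), Int.cast_mul]
  rw [h3, absLogHeight_smul _ (Int.cast_ne_zero.2 hg0), absLogHeight_int z hz1]
  have hzi0 : z i0 ≠ 0 := by
    intro h
    have := hz i0 (mem_univ _)
    rw [h, mul_zero] at this
    exact hi0 this
  have hbdd : BddAbove (Set.range fun i => |z i|) := (Set.finite_range _).bddAbove
  have hpos : 0 < (⨆ i, |z i| : ℤ) := lt_of_lt_of_le (abs_pos.2 hzi0) (le_ciSup hbdd i0)
  have hle : (⨆ i, |z i| : ℤ) ≤ H := by
    refine ciSup_le fun i => ?_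
    refine le_trans ?_ (hy i)
    rw [hz i (mem_univ _), abs_mul]
    exact le_mul_of_one_le_left (abs_nonneg _) (Int.one_le_abs hg0)
  refine Real.log_le_log (by exact_mod_cast hpos) ?_
  exact_mod_cast hle

/-- the line -/
noncomputable def yy (n : ℕ) (i : Fin (n + 1)) : Polynomial ℤ :=
  if i.1 = 0 then 1 else if i.1 = 1 then Polynomial.X else 0

/-- the second unit vector -/
def e1 (n : ℕ) (i : Fin (n + 1)) : ℤ := if i.1 = 1 then 1 else 0

theorem prod_yy (hn : 1 ≤ n) (m : Fin (n + 1) →₀ ℕ) : ∃ c : ℤ, (c = 0 ∨ c = 1) ∧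
    ∏ i, yy n i ^ (m i) = Polynomial.C c * Polynomial.X ^ (m ⟨1, by omega⟩) ∧
    (m.degree = m ⟨1, by omega⟩ → ∏ i, e1 n i ^ (m i) = c) ∧
    (m.degree ≠ m ⟨1, by omega⟩ → ∏ i, e1 n i ^ (m i) = 0) := by
  classical
  set i1 : Fin (n + 1) := ⟨1, by omega⟩ with hi1
  refine ⟨∏ i ∈ univ.erase i1, (if i.1 = 0 then (1 : ℤ) else 0) ^ (m i), ?_, ?_, ?_, ?_⟩
  · by_cases h : ∃ i ∈ univ.erase i1, i.1 ≠ 0 ∧ m i ≠ 0
    · obtain ⟨i, hi, h1, h2⟩ := h
      left
      refine Finset.prod_eq_zero hi ?_
      rw [if_neg h1, zero_pow h2]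
    · push Not at h
      right
      refine Finset.prod_eq_one fun i hi => ?_
      by_cases h1 : i.1 = 0
      · rw [if_pos h1, one_pow]
      · rw [h i hi h1, pow_zero]
  · rw [← Finset.prod_erase_mul univ _ (mem_univ i1)]
    have h1 : yy n i1 = Polynomial.X := by
      unfold yy
      rw [if_neg (by rw [hi1]; simp), if_pos rfl]
    rw [h1]
    congr 1
    rw [map_prod]
    refine Finset.prod_congr rfl fun i hi => ?_
    have hi' : i.1 ≠ 1 := by
      intro h
      exact (Finset.mem_erase.1 hi).1 (Fin.ext h)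
    unfold yy
    by_cases h0 : i.1 = 0
    · rw [if_pos h0, if_pos h0, one_pow, one_pow, map_one]
    · rw [if_neg h0, if_neg hi', if_neg h0, map_pow, map_zero]
  · intro h
    have h1 : ∀ i ∈ univ.erase i1, m i = 0 := by
      rw [Finsupp.degree_eq_sum, ← Finset.sum_erase_add univ _ (mem_univ i1)] at h
      have h2 : ∑ i ∈ univ.erase i1, m i = 0 := by omega
      exact fun i hi => (Finset.sum_eq_zero_iff.1 h2) i hi
    rw [← Finset.prod_erase_mul univ _ (mem_univ i1)]
    have h2 : e1 n i1 = 1 := by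
      unfold e1
      rw [if_pos rfl]
    rw [h2, one_pow, mul_one]
    refine Finset.prod_congr rfl fun i hi => ?_
    rw [h1 i hi, pow_zero, pow_zero]
  · intro h
    by_contra hne
    apply h
    rw [Finsupp.degree_eq_sum, ← Finset.sum_erase_add univ _ (mem_univ i1)]
    have h2 : ∑ i ∈ univ.erase i1, m i = 0 := by
      refine Finset.sum_eq_zero fun i hi => ?_
      by_contra hmi
      apply hne
      refine Finset.prod_eq_zero (mem_univ i) ?_
      have hi' : i.1 ≠ 1 := by
        intro h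
        exact (Finset.mem_erase.1 hi).1 (Fin.ext h)
      unfold e1
      rw [if_neg hi', zero_pow hmi]
    rw [h2, zero_add]

/-- the restriction to a line -/
theorem restrict (hn : 1 ≤ n) (d H : ℕ) (F : MvPolynomial (Fin (n + 1)) ℤ) (hF : F ∈ Forms n d H) :
    ∃ f : Polynomial ℤ, MvPolynomial.aeval (yy n) F = f ∧ f.natDegree ≤ d ∧
      (∀ k, |f.coeff k| ≤ ((n + d).choose d * H : ℕ)) ∧
      f.coeff d = MvPolynomial.aeval (e1 n) F := by
  classical
  refine ⟨_, rfl, ?_, ?_, ?_⟩
  · rw [MvPolynomial.aeval_def, MvPolynomial.eval₂_eq']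
    refine Polynomial.natDegree_sum_le_of_forall_le _ _ fun m hm => ?_
    obtain ⟨c, _, hc2, _⟩ := prod_yy hn m
    rw [hc2]
    have hm' : m.degree = d := by
      rw [Finsupp.degree_eq_weight_one]
      exact hF.1 (MvPolynomial.mem_support_iff.1 hm)
    have h1 : m ⟨1, by omega⟩ ≤ d := by
      rw [← hm', Finsupp.degree_eq_sum]
      exact Finset.single_le_sum (f := fun i => m i) (fun _ _ => Nat.zero_le _) (mem_univ _)
    refine (Polynomial.natDegree_mul_le).trans ?_
    rw [Polynomial.algebraMap_eq, Polynomial.natDegree_C, zero_add]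
    exact (Polynomial.natDegree_C_mul_X_pow_le _ _).trans h1
  · intro k
    rw [MvPolynomial.aeval_def, MvPolynomial.eval₂_eq', Polynomial.finsetSum_coeff]
    have h1 : ∀ m ∈ F.support, |((algebraMap ℤ (Polynomial ℤ)) (F.coeff m) *
        ∏ i, yy n i ^ (m i)).coeff k| ≤ H := by
      intro m _
      obtain ⟨c, hc1, hc2, _⟩ := prod_yy hn m
      rw [hc2, Polynomial.algebraMap_eq, Polynomial.coeff_C_mul, Polynomial.coeff_C_mul_X_pow]
      have h2 := hF.2 m
      split_ifs
      · rcases hc1 with h | h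
        · rw [h, mul_zero, abs_zero]
          exact (abs_nonneg _).trans h2
        · rw [h, mul_one]
          exact h2
      · rw [mul_zero, abs_zero]
        exact (abs_nonneg _).trans h2
    refine (Finset.abs_sum_le_sum_abs _ _).trans ((Finset.sum_le_card_nsmul _ _ _ h1).trans ?_)
    rw [nsmul_eq_mul]
    have h2 : F.support.card ≤ (n + d).choose d := by
      rw [← card_Mo]
      refine Finset.card_le_card fun m hm => ?_
      rw [mem_Mo, Finsupp.degree_eq_weight_one]
      exact hF.1 (MvPolynomial.mem_support_iff.1 hm)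
    rw [Nat.cast_mul]
    exact mul_le_mul_of_nonneg_right (Nat.cast_le.2 h2) (Nat.cast_nonneg _)
  · rw [MvPolynomial.aeval_def, MvPolynomial.eval₂_eq', Polynomial.finsetSum_coeff,
      MvPolynomial.aeval_def, MvPolynomial.eval₂_eq']
    refine Finset.sum_congr rfl fun m hm => ?_
    obtain ⟨c, _, hc2, hc3, hc4⟩ := prod_yy hn m
    have hm' : m.degree = d := by
      rw [Finsupp.degree_eq_weight_one]
      exact hF.1 (MvPolynomial.mem_support_iff.1 hm)
    rw [hm'] at hc3 hc4
    rw [hc2, Polynomial.algebraMap_eq, Polynomial.coeff_C_mul, Polynomial.coeff_C_mul_X_pow]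
    have e : (algebraMap ℤ ℤ) (F.coeff m) = F.coeff m := rfl
    rw [e]
    by_cases h : d = m ⟨1, by omega⟩
    · rw [if_pos h, hc3 h]
    · rw [if_neg h, hc4 h]

/-- the point of the line -/
noncomputable def pt (n : ℕ) (α : Qbar) (i : Fin (n + 1)) : Qbar :=
  if i.1 = 0 then 1 else if i.1 = 1 then α else 0

open Pool.Agent.Helper259.HtPoly in
/-- **every hypersurface has a point of small height** -/
theorem exists_small (n d : ℕ) (hn : 1 ≤ n) (hd : 1 ≤ d) : ∃ C : ℝ, 1 ≤ C ∧ ∀ H : ℕ, 1 ≤ H →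
    ∀ F ∈ Forms n d H, ∃ k x, IsPoint k (C * (H : ℝ) ^ ((1 : ℝ) / d)) x ∧
      MvPolynomial.aeval x F = 0 := by
  obtain ⟨C₁, hC₁, h1⟩ := small_root d hd
  set A : Fin (n + 1) × Fin 2 → Qbar := fun a =>
    if (a.1.1 = 0 ∧ a.2 = 0) ∨ (a.1.1 = 1 ∧ a.2 = 1) then 1 else 0 with hA
  set c₀ : ℝ := absLogHeight (fun i => ((e1 n i : ℤ) : Qbar)) with hc₀
  set N := (n + d).choose d with hN
  set c₁ : ℝ := Real.log (Nat.card (Fin 2)) + absLogHeight A + (C₁ + Real.log N) with hc₁
  have hc₀0 : 0 ≤ c₀ := absLogHeight_nonneg _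
  have hN0 : 0 < N := Nat.choose_pos (by omega)
  have hlogN : 0 ≤ Real.log N := Real.log_nonneg (by exact_mod_cast hN0)
  have hc₁0 : 0 ≤ c₁ := by
    have h2 := absLogHeight_nonneg A
    have h3 : 0 ≤ Real.log (Nat.card (Fin 2)) := Real.log_natCast_nonneg _
    linarith
  refine ⟨Real.exp (c₀ + c₁), Real.one_le_exp (by linarith), fun H hH F hF => ?_⟩
  have hH0 : (0 : ℝ) < H := by exact_mod_cast hH
  have hd0 : (0 : ℝ) < d := by exact_mod_cast hd
  have hlogH : 0 ≤ Real.log H := Real.log_natCast_nonneg _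
  have hlog : Real.log (Real.exp (c₀ + c₁) * (H : ℝ) ^ ((1 : ℝ) / d)) =
      c₀ + c₁ + Real.log H / d := by
    rw [Real.log_mul (Real.exp_pos _).ne' (Real.rpow_pos_of_pos hH0 _).ne', Real.log_exp,
      Real.log_rpow hH0]
    ring
  obtain ⟨f, hf1, hf2, hf3, hf4⟩ := restrict hn d H F hF
  by_cases h0 : MvPolynomial.aeval (e1 n) F = 0
  · refine ⟨_, fun i => ((e1 n i : ℤ) : Qbar), ⟨⟨⟨1, by omega⟩, ?_⟩, rfl, ?_⟩, ?_⟩
    · unfold e1
      simp
    · rw [hlog]
      have : 0 ≤ Real.log H / d := div_nonneg hlogH hd0.le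
      linarith
    · have h2 := congrArg (fun a : ℤ => (a : Qbar)) h0
      simp only [Int.cast_zero] at h2
      rw [← h2]
      have h3 := MvPolynomial.aeval_algebraMap_apply (B := Qbar) (e1 n) F
      exact h3
  · have hne : f.coeff d ≠ 0 := by rw [hf4]; exact h0
    set P : Polynomial Qbar := f.map (algebraMap ℤ Qbar) with hP
    have hPd : P.natDegree = d := by
      rw [hP, Polynomial.natDegree_map_eq_of_injective (algebraMap ℤ Qbar).injective_int]
      exact le_antisymm hf2 (Polynomial.le_natDegree_of_ne_zero hne)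
    obtain ⟨α, hα, hαh⟩ := h1 P hPd
    have hheight : absLogHeight (cv d P) ≤ Real.log N + Real.log H := by
      have h2 : cv d P = fun i : Fin (d + 1) => ((f.coeff i : ℤ) : Qbar) := by
        funext i
        simp [cv, hP]
      rw [h2, ← Real.log_mul (by exact_mod_cast hN0.ne') hH0.ne', ← Nat.cast_mul]
      refine height_int_le (fun i : Fin (d + 1) => f.coeff i) (N * H) (fun i => hf3 i) ?_
      intro h
      exact hne (congrFun h (Fin.last d))
    refine ⟨_, pt n α, ⟨⟨⟨0, by omega⟩, by simp [pt]⟩, rfl, ?_⟩, ?_⟩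
    · have h2 := absLogHeight_linear A ![1, α]
      have h3 : (fun j : Fin (n + 1) => ∑ i, A (j, i) * (![1, α] : Fin 2 → Qbar) i) = pt n α := by
        funext j
        unfold pt
        simp only [hA, Fin.sum_univ_two, Matrix.cons_val_zero, Matrix.cons_val_one]
        by_cases h0 : j.1 = 0
        · simp [h0]
        · by_cases h1 : j.1 = 1
          · simp [h1]
          · simp [h0, h1]
      rw [h3] at h2
      have h4 : absLogHeight ![1, α] ≤ (C₁ + Real.log N) + Real.log H / d := by
        have h5 : absLogHeight ![1, α] ≤ (C₁ + (Real.log N + Real.log H)) / d := by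
          rw [le_div_iff₀ hd0, mul_comm]
          linarith
        have h6 : (C₁ + Real.log N) / d ≤ C₁ + Real.log N :=
          div_le_self (by linarith) (by exact_mod_cast hd)
        have h7 : (C₁ + (Real.log N + Real.log H)) / d =
            (C₁ + Real.log N) / d + Real.log H / d := by ring
        linarith
      rw [hlog]
      linarith
    · have h2 : MvPolynomial.aeval (pt n α) F = Polynomial.aeval α f := by
        rw [← hf1]
        have h3 := MvPolynomial.comp_aeval_apply (yy n) (Polynomial.aeval (R := ℤ) α) F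
        rw [h3]
        congr 1
        congr 1
        funext i
        unfold pt yy
        split_ifs <;> simp
      rw [h2, ← Polynomial.eval_map_algebraMap]
      exact hα

end Pool.Agent.Helper17.AL
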